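import Mathlib

set_option autoImplicit false

/-! Arithmetic progressions of length `q` in `[1, N]` and their rational neighbourhoods. -/

namespace Pool.Agent.Helper83.L4

open Finset

/-- an arithmetic progression of length q -/
def ap (q : ℕ) (t : ℤ × ℤ) : Finset ℤ := (range q).image fun i : ℕ => t.1 + (i : ℤ) * t.2

/-- the progressions of length q with positive difference inside [1,N] -/
noncomputable def Ix (N q : ℕ) : Finset (ℤ × ℤ) :=
  ((Icc (1 : ℤ) N) ×ˢ (Icc (1 : ℤ) N)).filter fun t => ap q t ⊆ Icc (1 : ℤ) N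

/-- the pairs used in the rational neighbourhood -/
noncomputable def PQ (q : ℕ) : Finset (ℤ × ℤ) := Icc (1 : ℤ) q ×ˢ Icc (-(2 * (q : ℤ) ^ 2)) (2 * (q : ℤ) ^ 2)

/-- the rational neighbourhood of a progression -/
noncomputable def ex (N q : ℕ) (t : ℤ × ℤ) : Finset ℤ :=
  (Icc (1 : ℤ) N).filter fun x => ∃ w ∈ PQ q, w.1 * (x - t.1) = w.2 * t.2

theorem mem_ap {q : ℕ} {t : ℤ × ℤ} {x : ℤ} :
    x ∈ ap q t ↔ ∃ i : ℕ, i < q ∧ t.1 + (i : ℤ) * t.2 = x := by
  unfold ap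
  rw [mem_image]
  constructor
  · rintro ⟨i, hi, h⟩; exact ⟨i, mem_range.mp hi, h⟩
  · rintro ⟨i, hi, h⟩; exact ⟨i, mem_range.mpr hi, h⟩

theorem mem_Ix {N q : ℕ} {t : ℤ × ℤ} (h : t ∈ Ix N q) :
    1 ≤ t.1 ∧ t.1 ≤ N ∧ 1 ≤ t.2 ∧ t.2 ≤ N ∧ ap q t ⊆ Icc (1 : ℤ) N := by
  unfold Ix at h
  rw [mem_filter, mem_product, mem_Icc, mem_Icc] at h
  exact ⟨h.1.1.1, h.1.1.2, h.1.2.1, h.1.2.2, h.2⟩

theorem mem_PQ {q : ℕ} {w : ℤ × ℤ} (h : w ∈ PQ q) : 1 ≤ w.1 ∧ w.1 ≤ q := by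
  unfold PQ at h
  rw [mem_product, mem_Icc] at h
  exact h.1

theorem mem_ex {N q : ℕ} {t : ℤ × ℤ} {x : ℤ} (h : x ∈ ex N q t) :
    ∃ w ∈ PQ q, w.1 * (x - t.1) = w.2 * t.2 := by
  unfold ex at h
  rw [mem_filter] at h
  exact h.2

theorem ap_card {q : ℕ} {t : ℤ × ℤ} (ht : t.2 ≠ 0) : (ap q t).card = q := by
  unfold ap
  rw [card_image_of_injective, card_range]
  intro i j h
  have h1 : (i : ℤ) * t.2 = (j : ℤ) * t.2 := by
    have h2 : t.1 + (i : ℤ) * t.2 = t.1 + (j : ℤ) * t.2 := h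
    linarith
  have h3 := mul_right_cancel₀ ht h1
  exact_mod_cast h3

theorem ap_card_le (q : ℕ) (t : ℤ × ℤ) : (ap q t).card ≤ q := by
  unfold ap
  exact card_image_le.trans (by rw [card_range])

theorem PQ_card (q : ℕ) : (PQ q).card ≤ 5 * q ^ 3 := by
  unfold PQ
  rw [card_product, Int.card_Icc, Int.card_Icc]
  have h1 : ((q : ℤ) + 1 - 1).toNat = q := by
    rw [add_sub_cancel_right]; exact Int.toNat_natCast q
  have h2 : (2 * (q : ℤ) ^ 2 + 1 - -(2 * (q : ℤ) ^ 2)).toNat = 4 * q ^ 2 + 1 := by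
    have : 2 * (q : ℤ) ^ 2 + 1 - -(2 * (q : ℤ) ^ 2) = ((4 * q ^ 2 + 1 : ℕ) : ℤ) := by
      push_cast; ring
    rw [this]; exact Int.toNat_natCast _
  rw [h1, h2]
  have h3 : q ≤ q ^ 3 := Nat.le_self_pow (by norm_num) q
  calc q * (4 * q ^ 2 + 1) = 4 * q ^ 3 + q := by ring
    _ ≤ 5 * q ^ 3 := by omega

theorem ex_sub (N q : ℕ) (t : ℤ × ℤ) : ex N q t ⊆ Icc (1 : ℤ) N := filter_subset _ _

theorem ex_card (N q : ℕ) (t : ℤ × ℤ) : (ex N q t).card ≤ (PQ q).card := by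
  refine (card_le_card (t := (PQ q).image fun w => t.1 + w.2 * t.2 / w.1) ?_).trans card_image_le
  intro x hx
  obtain ⟨w, hw, h⟩ := mem_ex hx
  rw [mem_image]
  refine ⟨w, hw, ?_⟩
  have h1 : w.1 ≠ 0 := by have := (mem_PQ hw).1; omega
  rw [← h, Int.mul_ediv_cancel_left _ h1]
  ring

theorem Ix_card (N q : ℕ) : (Ix N q).card ≤ N ^ 2 := by
  unfold Ix
  refine (card_filter_le _ _).trans ?_
  rw [card_product, Int.card_Icc]
  have h1 : ((N : ℤ) + 1 - 1).toNat = N := by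
    rw [add_sub_cancel_right]; exact Int.toNat_natCast N
  rw [h1, sq]

/-- two progressions with two common points -/
theorem ap_sub_ex_aux {N q : ℕ} {t t' : ℤ × ℤ} (ht : t ∈ Ix N q) (ht' : t' ∈ Ix N q) {x y : ℤ}
    (hx : x ∈ ap q t) (hx' : x ∈ ap q t') (hy : y ∈ ap q t) (hy' : y ∈ ap q t') (hxy : x < y) :
    ap q t ⊆ ex N q t' := by
  obtain ⟨-, -, hd, -, hsub⟩ := mem_Ix ht
  obtain ⟨-, -, hd', -, -⟩ := mem_Ix ht'
  obtain ⟨a, ha, ea⟩ := mem_ap.mp hx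
  obtain ⟨a', ha', ea'⟩ := mem_ap.mp hx'
  obtain ⟨b, hb, eb⟩ := mem_ap.mp hy
  obtain ⟨b', hb', eb'⟩ := mem_ap.mp hy'
  intro z hz
  obtain ⟨i, hi, ei⟩ := mem_ap.mp hz
  unfold ex
  rw [mem_filter]
  refine ⟨hsub hz, ((b : ℤ) - a, ((b : ℤ) - a) * a' + ((i : ℤ) - a) * ((b' : ℤ) - a')), ?_, ?_⟩
  · have e1 : ((b : ℤ) - a) * t.2 = y - x := by rw [← ea, ← eb]; ring
    have e2 : ((b' : ℤ) - a') * t'.2 = y - x := by rw [← ea', ← eb']; ring
    have hp1 : 0 < (b : ℤ) - a := by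
      by_contra hcon
      push Not at hcon
      have := mul_nonpos_of_nonpos_of_nonneg hcon (by omega : (0 : ℤ) ≤ t.2)
      omega
    have hp2 : 0 < (b' : ℤ) - a' := by
      by_contra hcon
      push Not at hcon
      have := mul_nonpos_of_nonpos_of_nonneg hcon (by omega : (0 : ℤ) ≤ t'.2)
      omega
    have q0 : (0 : ℤ) ≤ q := by positivity
    have a0 : (0 : ℤ) ≤ a' := by positivity
    have g1 : ((b : ℤ) - a) * a' ≤ (q : ℤ) * q :=
      mul_le_mul (by omega) (by omega) a0 q0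
    have g2 : 0 ≤ ((b : ℤ) - a) * a' := mul_nonneg hp1.le a0
    have g3 : ((i : ℤ) - a) * ((b' : ℤ) - a') ≤ (q : ℤ) * q := by
      refine (mul_le_mul_of_nonneg_right (by omega : (i : ℤ) - a ≤ q) hp2.le).trans ?_
      exact mul_le_mul_of_nonneg_left (by omega) q0
    have g4 : -((q : ℤ) * q) ≤ ((i : ℤ) - a) * ((b' : ℤ) - a') := by
      have h1 : -((q : ℤ) * ((b' : ℤ) - a')) ≤ ((i : ℤ) - a) * ((b' : ℤ) - a') := by
        rw [← neg_mul]
        exact mul_le_mul_of_nonneg_right (by omega) hp2.le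
      have h2 : (q : ℤ) * ((b' : ℤ) - a') ≤ (q : ℤ) * q :=
        mul_le_mul_of_nonneg_left (by omega) q0
      linarith
    have hqq : (q : ℤ) ^ 2 = (q : ℤ) * q := sq _
    unfold PQ
    rw [mem_product, mem_Icc, mem_Icc]
    refine ⟨⟨by omega, by omega⟩, ?_, ?_⟩
    · show -(2 * (q : ℤ) ^ 2) ≤ ((b : ℤ) - a) * a' + ((i : ℤ) - a) * ((b' : ℤ) - a')
      rw [hqq]
      linarith [mul_nonneg q0 q0]
    · show ((b : ℤ) - a) * a' + ((i : ℤ) - a) * ((b' : ℤ) - a') ≤ 2 * (q : ℤ) ^ 2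
      rw [hqq]
      linarith
  · show ((b : ℤ) - a) * (z - t'.1) =
      (((b : ℤ) - a) * a' + ((i : ℤ) - a) * ((b' : ℤ) - a')) * t'.2
    have e1 : ((b : ℤ) - a) * t.2 = ((b' : ℤ) - a') * t'.2 := by
      have e1 : ((b : ℤ) - a) * t.2 = y - x := by rw [← ea, ← eb]; ring
      have e2 : ((b' : ℤ) - a') * t'.2 = y - x := by rw [← ea', ← eb']; ring
      rw [e1, e2]
    have e3 : z - t'.1 = (a' : ℤ) * t'.2 + ((i : ℤ) - a) * t.2 := by
      rw [← ei]
      have : t.1 + (a : ℤ) * t.2 = t'.1 + (a' : ℤ) * t'.2 := by rw [ea, ea']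
      linear_combination this
    rw [e3]
    linear_combination ((i : ℤ) - a) * e1

theorem ap_sub_ex {N q : ℕ} {t t' : ℤ × ℤ} (ht : t ∈ Ix N q) (ht' : t' ∈ Ix N q)
    (h : 2 ≤ (ap q t ∩ ap q t').card) : ap q t ⊆ ex N q t' := by
  obtain ⟨x, hx, y, hy, hxy⟩ := Finset.one_lt_card.mp h
  rw [mem_inter] at hx hy
  rcases lt_or_gt_of_ne hxy with h1 | h1
  · exact ap_sub_ex_aux ht ht' hx.1 hx.2 hy.1 hy.2 h1
  · exact ap_sub_ex_aux ht ht' hy.1 hy.2 hx.1 hx.2 h1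

theorem count_ap (N q : ℕ) (W : Finset ℤ) :
    ((Ix N q).filter fun t => 2 ≤ (ap q t ∩ W).card).card ≤ W.card ^ 2 * q ^ 2 := by
  have h : ((Ix N q).filter fun t => 2 ≤ (ap q t ∩ W).card) ⊆
      ((W ×ˢ W) ×ˢ (range q ×ˢ range q)).image fun c : (ℤ × ℤ) × (ℕ × ℕ) =>
        (c.1.1 - (c.2.1 : ℤ) * ((c.1.1 - c.1.2) / ((c.2.1 : ℤ) - c.2.2)),
          (c.1.1 - c.1.2) / ((c.2.1 : ℤ) - c.2.2)) := by
    intro t ht
    rw [mem_filter] at ht
    obtain ⟨x, hx, y, hy, hxy⟩ := Finset.one_lt_card.mp ht.2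
    rw [mem_inter] at hx hy
    obtain ⟨a, ha, ea⟩ := mem_ap.mp hx.1
    obtain ⟨b, hb, eb⟩ := mem_ap.mp hy.1
    rw [mem_image]
    refine ⟨((x, y), (a, b)), ?_, ?_⟩
    · rw [mem_product, mem_product, mem_product, mem_range, mem_range]
      exact ⟨⟨hx.2, hy.2⟩, ha, hb⟩
    · have e1 : x - y = ((a : ℤ) - b) * t.2 := by rw [← ea, ← eb]; ring
      have h0 : (a : ℤ) - b ≠ 0 := by
        intro h0
        rw [h0, zero_mul] at e1
        exact hxy (by linarith)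
      have e2 : (x - y) / ((a : ℤ) - b) = t.2 := by
        rw [e1]; exact Int.mul_ediv_cancel_left _ h0
      show (x - (a : ℤ) * ((x - y) / ((a : ℤ) - b)), (x - y) / ((a : ℤ) - b)) = t
      rw [e2]
      refine Prod.ext ?_ rfl
      show x - (a : ℤ) * t.2 = t.1
      rw [← ea]; ring
  refine (card_le_card h).trans (card_image_le.trans (le_of_eq ?_))
  rw [card_product, card_product, card_product, card_range]
  ring

theorem count_ex (N q : ℕ) (W : Finset ℤ) :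
    ((Ix N q).filter fun t => 2 ≤ (W ∩ ex N q t).card).card ≤ W.card ^ 2 * (PQ q).card ^ 2 := by
  have h : ((Ix N q).filter fun t => 2 ≤ (W ∩ ex N q t).card) ⊆
      ((W ×ˢ W) ×ˢ (PQ q ×ˢ PQ q)).image fun c : (ℤ × ℤ) × ((ℤ × ℤ) × (ℤ × ℤ)) =>
        (c.1.1 - c.2.1.2 * (c.2.1.1 * c.2.2.1 * (c.1.1 - c.1.2) /
            (c.2.1.2 * c.2.2.1 - c.2.2.2 * c.2.1.1)) / c.2.1.1,
          c.2.1.1 * c.2.2.1 * (c.1.1 - c.1.2) / (c.2.1.2 * c.2.2.1 - c.2.2.2 * c.2.1.1)) := by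
    intro t ht
    rw [mem_filter] at ht
    obtain ⟨x, hx, y, hy, hxy⟩ := Finset.one_lt_card.mp ht.2
    rw [mem_inter] at hx hy
    obtain ⟨w, hw, ew⟩ := mem_ex hx.2
    obtain ⟨v, hv, ev⟩ := mem_ex hy.2
    have hw1 : w.1 ≠ 0 := by have := (mem_PQ hw).1; omega
    have hv1 : v.1 ≠ 0 := by have := (mem_PQ hv).1; omega
    have e1 : w.1 * v.1 * (x - y) = (w.2 * v.1 - v.2 * w.1) * t.2 := by
      linear_combination v.1 * ew - w.1 * ev
    have h0 : w.2 * v.1 - v.2 * w.1 ≠ 0 := by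
      intro h0
      rw [h0, zero_mul] at e1
      have h2 := mul_ne_zero (mul_ne_zero hw1 hv1) (sub_ne_zero.mpr hxy)
      exact h2 e1
    have e2 : w.1 * v.1 * (x - y) / (w.2 * v.1 - v.2 * w.1) = t.2 := by
      rw [e1]; exact Int.mul_ediv_cancel_left _ h0
    have e3 : w.2 * t.2 / w.1 = x - t.1 := by
      rw [← ew]; exact Int.mul_ediv_cancel_left _ hw1
    rw [mem_image]
    refine ⟨((x, y), (w, v)), ?_, ?_⟩
    · rw [mem_product, mem_product, mem_product]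
      exact ⟨⟨hx.1, hy.1⟩, hw, hv⟩
    · show (x - w.2 * (w.1 * v.1 * (x - y) / (w.2 * v.1 - v.2 * w.1)) / w.1,
        w.1 * v.1 * (x - y) / (w.2 * v.1 - v.2 * w.1)) = t
      rw [e2, e3]
      refine Prod.ext ?_ rfl
      show x - (x - t.1) = t.1
      ring
  refine (card_le_card h).trans (card_image_le.trans (le_of_eq ?_))
  rw [card_product, card_product, card_product]
  ring

theorem count_ex1 (N q : ℕ) (z : ℤ) :
    ((Ix N q).filter fun t => z ∈ ex N q t).card ≤ (PQ q).card * N := by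
  have h : ((Ix N q).filter fun t => z ∈ ex N q t) ⊆
      (PQ q ×ˢ Icc (1 : ℤ) N).image fun c : (ℤ × ℤ) × ℤ =>
        (z - c.1.2 * c.2 / c.1.1, c.2) := by
    intro t ht
    rw [mem_filter] at ht
    obtain ⟨w, hw, ew⟩ := mem_ex ht.2
    obtain ⟨-, -, h3, h4, -⟩ := mem_Ix ht.1
    have hw1 : w.1 ≠ 0 := by have := (mem_PQ hw).1; omega
    rw [mem_image]
    refine ⟨(w, t.2), ?_, ?_⟩
    · rw [mem_product, mem_Icc]
      exact ⟨hw, h3, h4⟩
    · show (z - w.2 * t.2 / w.1, t.2) = t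
      have e3 : w.2 * t.2 / w.1 = z - t.1 := by
        rw [← ew]; exact Int.mul_ediv_cancel_left _ hw1
      rw [e3]
      refine Prod.ext ?_ rfl
      show z - (z - t.1) = t.1
      ring
  refine (card_le_card h).trans (card_image_le.trans (le_of_eq ?_))
  rw [card_product, Int.card_Icc]
  have h1 : ((N : ℤ) + 1 - 1).toNat = N := by
    rw [add_sub_cancel_right]; exact Int.toNat_natCast N
  rw [h1]

theorem count_ap1 (N q : ℕ) (x : ℤ) :
    ((Ix N q).filter fun t => x ∈ ap q t).card ≤ q * N := by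
  have h : ((Ix N q).filter fun t => x ∈ ap q t) ⊆
      (range q ×ˢ Icc (1 : ℤ) N).image fun c : ℕ × ℤ => (x - (c.1 : ℤ) * c.2, c.2) := by
    intro t ht
    rw [mem_filter] at ht
    obtain ⟨a, ha, ea⟩ := mem_ap.mp ht.2
    obtain ⟨-, -, h3, h4, -⟩ := mem_Ix ht.1
    rw [mem_image]
    refine ⟨(a, t.2), ?_, ?_⟩
    · rw [mem_product, mem_Icc, mem_range]
      exact ⟨ha, h3, h4⟩
    · show (x - (a : ℤ) * t.2, t.2) = t
      refine Prod.ext ?_ rfl
      show x - (a : ℤ) * t.2 = t.1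
      rw [← ea]; ring
  refine (card_le_card h).trans (card_image_le.trans (le_of_eq ?_))
  rw [card_product, Int.card_Icc, card_range]
  have h1 : ((N : ℤ) + 1 - 1).toNat = N := by
    rw [add_sub_cancel_right]; exact Int.toNat_natCast N
  rw [h1]

theorem count_pair (N q : ℕ) (x z : ℤ) (hxz : x ≠ z) :
    ((Ix N q).filter fun t => x ∈ ap q t ∧ z ∈ ex N q t).card ≤ q * (PQ q).card := by
  have h : ((Ix N q).filter fun t => x ∈ ap q t ∧ z ∈ ex N q t) ⊆
      (range q ×ˢ PQ q).image fun c : ℕ × (ℤ × ℤ) =>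
        (x - (c.1 : ℤ) * (c.2.1 * (z - x) / (c.2.2 - c.2.1 * c.1)),
          c.2.1 * (z - x) / (c.2.2 - c.2.1 * c.1)) := by
    intro t ht
    rw [mem_filter] at ht
    obtain ⟨a, ha, ea⟩ := mem_ap.mp ht.2.1
    obtain ⟨w, hw, ew⟩ := mem_ex ht.2.2
    have hw1 : w.1 ≠ 0 := by have := (mem_PQ hw).1; omega
    have e1 : w.1 * (z - x) = (w.2 - w.1 * a) * t.2 := by
      rw [← ea]
      linear_combination ew
    have h0 : w.2 - w.1 * a ≠ 0 := by
      intro h0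
      rw [h0, zero_mul] at e1
      exact mul_ne_zero hw1 (sub_ne_zero.mpr hxz.symm) e1
    have e2 : w.1 * (z - x) / (w.2 - w.1 * a) = t.2 := by
      rw [e1]; exact Int.mul_ediv_cancel_left _ h0
    rw [mem_image]
    refine ⟨(a, w), ?_, ?_⟩
    · rw [mem_product, mem_range]
      exact ⟨ha, hw⟩
    · show (x - (a : ℤ) * (w.1 * (z - x) / (w.2 - w.1 * a)),
        w.1 * (z - x) / (w.2 - w.1 * a)) = t
      rw [e2]
      refine Prod.ext ?_ rfl
      show x - (a : ℤ) * t.2 = t.1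
      rw [← ea]; ring
  refine (card_le_card h).trans (card_image_le.trans (le_of_eq ?_))
  rw [card_product, card_range]

/-! The lattices: products of two progressions -/

/-- the product set has more than q points only if both factors have two points -/
theorem two_two {q : ℕ} {a b : ℕ} (ha : a ≤ q) (hb : b ≤ q) (h : q < a * b) : 2 ≤ a ∧ 2 ≤ b := by
  constructor
  · by_contra hcon
    have h1 : a ≤ 1 := by omega
    have h2 : a * b ≤ 1 * b := Nat.mul_le_mul_right _ h1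
    omega
  · by_contra hcon
    have h1 : b ≤ 1 := by omega
    have h2 : a * b ≤ a * 1 := Nat.mul_le_mul_left _ h1
    omega

theorem card_sub_filter {α : Type} [DecidableEq α] (s : Finset α) (p : α → Prop)
    [DecidablePred p] [DecidablePred fun i : ↥s => p i.1] :
    (univ.filter fun i : ↥s => p i.1).card ≤ (s.filter p).card := by
  refine Finset.card_le_card_of_injOn (fun i : ↥s => i.1) ?_ ?_
  · intro i hi
    have h : p i.1 := by simpa using hi
    rw [Finset.mem_coe, Finset.mem_filter]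
    exact ⟨i.2, h⟩
  · intro i _ j _ h
    exact Subtype.ext h

end Pool.Agent.Helper83.L4
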