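import Mathlib
import Pool.Agent.Helper32.Lat.Gen
import Pool.Agent.Helper83.L4.NumDef

set_option autoImplicit false
set_option linter.unusedSectionVars false
set_option linter.unusedVariables false
set_option linter.unusedSimpArgs false

namespace Pool.Agent.Helper83.L4

open Finset Pool.Agent.Helper32.Lat

/-- The combinatorial data of the game together with the numerical parameters of Breaker's strategy. -/
structure Sys (V I : Type) [DecidableEq V] [DecidableEq I] [Fintype I] extends Num where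
  S : Finset V
  A : I → Finset V
  E : I → Finset V
  hcS : S.card ≤ cS
  hcI : Fintype.card I ≤ cI
  hA : ∀ i, A i ⊆ S
  hE : ∀ i, E i ⊆ S
  hn : ∀ i, (A i).card = n
  hAE : ∀ i j, q < (A i ∩ A j).card → A i ⊆ E j
  hfar1 : ∀ j, (univ.filter fun i => q < (A i ∩ E j).card).card ≤ r
  hfar2 : ∀ i, (univ.filter fun j => q < (A i ∩ E j).card).card ≤ r
  he : ∀ j, (E j).card ≤ e
  hd1 : ∀ z, (univ.filter fun j => z ∈ E j).card ≤ d1
  hd2 : ∀ x z, x ≠ z → (univ.filter fun j => x ∈ A j ∧ z ∈ E j).card ≤ d2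

section static

variable {V J : Type*} [DecidableEq V] [Fintype J]

/-- static weights -/
noncomputable def wS (f : ℝ) (U : J → Finset V) (c : J → ℝ) (M Y : Finset V) (j : J) : ℝ :=
  if Disjoint (U j) Y then c j * f⁻¹ ^ ((U j \ M).card) else 0

theorem wS_nonneg {f : ℝ} (hf : 0 < f) {U : J → Finset V} {c : J → ℝ} (hc : ∀ j, 0 ≤ c j)
    (M Y : Finset V) (j : J) : 0 ≤ wS f U c M Y j := by
  unfold wS
  split_ifs
  · have := hc j; positivity
  · exact le_rfl

theorem wS_move {f : ℝ} (hf : 0 < f) (U : J → Finset V) (c : J → ℝ) (M Y Δ : Finset V)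
    (hΔ : Disjoint Δ M) (j : J) :
    wS f U c (M ∪ Δ) Y j =
      wS f U c M Y j * ∏ x ∈ Δ, (1 + (if x ∈ U j then f - 1 else 0)) := by
  have h1 : ∏ x ∈ Δ, (1 + (if x ∈ U j then f - 1 else 0)) = f ^ ((Δ.filter (· ∈ U j)).card) := by
    rw [← Finset.prod_const, Finset.prod_filter]
    refine Finset.prod_congr rfl fun x _ => ?_
    split_ifs <;> ring
  rw [h1]
  unfold wS
  by_cases hd : Disjoint (U j) Y
  · rw [if_pos hd, if_pos hd]
    have h2 : (U j \ M).card = (U j \ (M ∪ Δ)).card + (Δ.filter (· ∈ U j)).card := by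
      have h3 : U j \ M = (U j \ (M ∪ Δ)) ∪ Δ.filter (· ∈ U j) := by
        ext a
        simp only [Finset.mem_sdiff, Finset.mem_union, Finset.mem_filter]
        constructor
        · rintro ⟨h4, h5⟩
          by_cases h6 : a ∈ Δ
          · exact Or.inr ⟨h6, h4⟩
          · exact Or.inl ⟨h4, by tauto⟩
        · rintro (⟨h4, h5⟩ | ⟨h4, h5⟩)
          · exact ⟨h4, by tauto⟩
          · exact ⟨h5, fun h6 => Finset.disjoint_left.mp hΔ h4 h6⟩
      rw [h3]
      apply Finset.card_union_of_disjoint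
      rw [Finset.disjoint_left]
      intro a ha hb
      simp only [Finset.mem_sdiff, Finset.mem_union, Finset.mem_filter] at ha hb
      tauto
    rw [h2, pow_add, mul_assoc, mul_assoc, ← mul_pow, inv_mul_cancel₀ hf.ne', one_pow, mul_one]
  · rw [if_neg hd, if_neg hd, zero_mul]

theorem wS_kill {f : ℝ} (hf : 0 < f) {U : J → Finset V} {c : J → ℝ} (hc : ∀ j, 0 ≤ c j)
    (M Y R : Finset V) (j : J) :
    wS f U c M (Y ∪ R) j = kill U (wS f U c M Y) R j := by
  unfold kill wS
  by_cases h1 : Disjoint (U j) Y <;> by_cases h2 : Disjoint (U j) R <;>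
    simp [h1, h2, Finset.disjoint_union_right]

end static

namespace Sys

variable {V I : Type} [DecidableEq V] [DecidableEq I] [Fintype I] (s : Sys V I)

theorem f_pos : 0 < s.f := by linarith [s.hf1]
theorem b_pos : 0 < s.b := by linarith [s.hf1, s.hfb]
theorem b_gt1 : 1 < s.b := by linarith [s.hf1, s.hfb]
theorem b_lt2 : s.b ≤ 2 := by linarith [s.hbη, s.hη]
theorem n_pos : 0 < s.n := by have := s.hqn; omega

/-- individual weight function -/
noncomputable def gf (r : ℕ) : ℝ :=
  if r ≤ s.r0 then s.b⁻¹ ^ s.r0 * s.f ^ (s.r0 - r) else s.b⁻¹ ^ r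

theorem gf_pos (r : ℕ) : 0 < s.gf r := by
  have := s.b_pos
  have := s.f_pos
  unfold gf; split_ifs <;> positivity

theorem gf_big {r : ℕ} (hr : s.r0 ≤ r) : s.gf r = s.b⁻¹ ^ r := by
  unfold gf
  split_ifs with h
  · have : r = s.r0 := le_antisymm h hr
    rw [this]; simp
  · rfl

theorem gf_stepI {r : ℕ} (hr : s.r0 ≤ r) : s.gf r = s.b * s.gf (r + 1) := by
  rw [s.gf_big hr, s.gf_big (by omega), pow_succ, mul_comm s.b, mul_assoc,
    inv_mul_cancel₀ s.b_pos.ne', mul_one]

theorem gf_stepII {r : ℕ} (hr : r + 1 ≤ s.r0) : s.gf r = s.f * s.gf (r + 1) := by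
  unfold gf
  rw [if_pos (by omega), if_pos hr]
  have : s.r0 - r = (s.r0 - (r + 1)) + 1 := by omega
  rw [this, pow_succ]; ring

theorem gf_step (r : ℕ) : s.gf r ≤ s.b * s.gf (r + 1) := by
  rcases le_or_gt s.r0 r with h | h
  · exact (s.gf_stepI h).le
  · rw [s.gf_stepII h]
    exact mul_le_mul_of_nonneg_right s.hfb (s.gf_pos _).le

theorem gf_succ_le (r : ℕ) : s.gf (r + 1) ≤ s.gf r := by
  have h0 := s.gf_pos (r + 1)
  rcases le_or_gt s.r0 r with h | h
  · rw [s.gf_stepI h]
    have := s.b_gt1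
    nlinarith
  · rw [s.gf_stepII h]
    have := s.hf1
    nlinarith

theorem gf_anti {r r' : ℕ} (h : r ≤ r') : s.gf r' ≤ s.gf r :=
  antitone_nat_of_succ_le (fun r => s.gf_succ_le r) h

theorem gf_add (r j : ℕ) : s.gf r ≤ s.b ^ j * s.gf (r + j) := by
  induction j with
  | zero => simp
  | succ j ih =>
    refine ih.trans ?_
    have h1 := s.gf_step (r + j)
    have h2 : 0 < s.b ^ j := pow_pos s.b_pos j
    calc s.b ^ j * s.gf (r + j) ≤ s.b ^ j * (s.b * s.gf (r + j + 1)) :=
          mul_le_mul_of_nonneg_left h1 h2.le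
      _ = s.b ^ (j + 1) * s.gf (r + (j + 1)) := by rw [pow_succ, ← add_assoc]; ring

theorem gf_le_of {r r' j : ℕ} (h : r' ≤ r + j) : s.gf r ≤ s.b ^ j * s.gf r' :=
  (s.gf_add r j).trans (mul_le_mul_of_nonneg_left (s.gf_anti h) (pow_pos s.b_pos j).le)

/-- private part of `B` in the set `T` of lattices -/
def pr (T : Finset I) (B : I) : Finset V := s.A B \ (T.erase B).biUnion s.A

theorem pr_sub (T : Finset I) (B : I) : s.pr T B ⊆ s.A B := Finset.sdiff_subset

theorem pr_disj {T : Finset I} {B C : I} (hB : B ∈ T) (hC : C ∈ T) (hBC : B ≠ C) {x : V}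
    (hx : x ∈ s.pr T B) : x ∉ s.pr T C := by
  intro hx'
  unfold pr at hx hx'
  rw [Finset.mem_sdiff] at hx hx'
  apply hx.2
  rw [Finset.mem_biUnion]
  exact ⟨C, Finset.mem_erase.mpr ⟨hBC.symm, hC⟩, hx'.1⟩

/-- validity of a tree configuration -/
def valid (Y : Finset V) (L : I → Finset V) (c : I × Finset I) : Prop :=
  Disjoint (s.A c.1) Y ∧ c.2.card ≤ s.m ∧
  (∀ B ∈ c.2, Disjoint (s.A B) Y ∧ (s.A c.1 ∩ L B).Nonempty) ∧
  (∀ B ∈ c.2, ∀ C ∈ c.2, B ≠ C → (s.A B ∩ s.A C).card ≤ s.q)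

open Classical in
/-- tree weights -/
noncomputable def wT (M Y : Finset V) (L : I → Finset V) (c : I × Finset I) : ℝ :=
  if s.valid Y L c then s.l1 * s.β ^ (s.m - c.2.card) * ∏ B ∈ c.2, s.gf ((s.pr c.2 B \ M).card)
  else 0

/-- points of a tree configuration -/
def ptsT (c : I × Finset I) : Finset V := s.A c.1 ∪ c.2.biUnion s.A

def tIT (M : Finset V) (x : V) (c : I × Finset I) : Prop :=
  ∃ B ∈ c.2, x ∈ s.pr c.2 B ∧ s.r0 < (s.pr c.2 B \ M).card

def tIIT (M : Finset V) (x : V) (c : I × Finset I) : Prop :=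
  ∃ B ∈ c.2, x ∈ s.pr c.2 B ∧ (s.pr c.2 B \ M).card ≤ s.r0

theorem tIT_pts {M : Finset V} {x : V} {c : I × Finset I} (h : s.tIT M x c) : x ∈ s.ptsT c := by
  obtain ⟨B, hB, hx, -⟩ := h
  exact Finset.mem_union_right _ (Finset.mem_biUnion.mpr ⟨B, hB, s.pr_sub _ _ hx⟩)

theorem tIIT_pts {M : Finset V} {x : V} {c : I × Finset I} (h : s.tIIT M x c) :
    x ∈ s.ptsT c := by
  obtain ⟨B, hB, hx, -⟩ := h
  exact Finset.mem_union_right _ (Finset.mem_biUnion.mpr ⟨B, hB, s.pr_sub _ _ hx⟩)

theorem tIT_excl {M : Finset V} {x : V} {c : I × Finset I} (h : s.tIT M x c) :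
    ¬ s.tIIT M x c := by
  rintro ⟨C, hC, hxC, h2⟩
  obtain ⟨B, hB, hx, h1⟩ := h
  have : B = C := by
    by_contra hne
    exact s.pr_disj hB hC hne hx hxC
  subst this
  omega

theorem wT_nonneg (M Y : Finset V) (L : I → Finset V) (c : I × Finset I) :
    0 ≤ s.wT M Y L c := by
  unfold wT
  split_ifs
  · have h1 := s.hl1
    have h2 := s.hβ
    have h3 : 0 ≤ ∏ B ∈ c.2, s.gf ((s.pr c.2 B \ M).card) :=
      Finset.prod_nonneg fun B _ => (s.gf_pos _).le
    positivity
  · exact le_rfl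

theorem valid_mono {Y Y' : Finset V} {L L' : I → Finset V} (hY : Y ⊆ Y') (hL : ∀ B, L' B ⊆ L B)
    {c : I × Finset I} (h : s.valid Y' L' c) : s.valid Y L c := by
  obtain ⟨h1, h2, h3, h4⟩ := h
  refine ⟨Disjoint.mono_right hY h1, h2, fun B hB => ⟨Disjoint.mono_right hY (h3 B hB).1, ?_⟩, h4⟩
  exact (h3 B hB).2.mono (Finset.inter_subset_inter_left (hL B))

theorem wT_mono {Y Y' : Finset V} {L L' : I → Finset V} (M : Finset V) (hY : Y ⊆ Y')
    (hL : ∀ B, L' B ⊆ L B) (c : I × Finset I) : s.wT M Y' L' c ≤ s.wT M Y L c := by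
  by_cases h : s.valid Y' L' c
  · have h' := s.valid_mono hY hL h
    unfold wT
    rw [if_pos h, if_pos h']
  · have h0 := s.wT_nonneg M Y L c
    unfold wT
    rw [if_neg h]
    exact h0

theorem wT_kill (M Y R : Finset V) (L : I → Finset V) (c : I × Finset I) :
    s.wT M (Y ∪ R) L c ≤ kill s.ptsT (s.wT M Y L) R c := by
  unfold kill
  split_ifs with h
  · exact s.wT_mono M Finset.subset_union_left (fun _ => Finset.Subset.refl _) c
  · unfold wT
    rw [if_neg]
    rintro ⟨h1, h2, h3, h4⟩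
    apply h
    unfold ptsT
    rw [Finset.disjoint_union_left, Finset.disjoint_biUnion_left]
    exact ⟨Disjoint.mono_right Finset.subset_union_right h1,
      fun B hB => Disjoint.mono_right Finset.subset_union_right (h3 B hB).1⟩

open Classical in
/-- one Maker point -/
theorem wT_insert (M Y : Finset V) (L : I → Finset V) (x : V) (hx : x ∉ M) (c : I × Finset I) :
    s.wT (insert x M) Y L c = s.wT M Y L c *
      (1 + (if s.tIT M x c then s.b - 1 else 0) + (if s.tIIT M x c then s.f - 1 else 0)) := by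
  unfold wT
  by_cases hv : s.valid Y L c
  swap
  · rw [if_neg hv, if_neg hv, zero_mul]
  rw [if_pos hv, if_pos hv]
  by_cases hB : ∃ B ∈ c.2, x ∈ s.pr c.2 B
  · obtain ⟨B, hB, hxB⟩ := hB
    have hcard : (s.pr c.2 B \ M).card = (s.pr c.2 B \ insert x M).card + 1 := by
      have : s.pr c.2 B \ insert x M = (s.pr c.2 B \ M).erase x := by
        ext a; simp only [Finset.mem_sdiff, Finset.mem_insert, Finset.mem_erase]; tauto
      rw [this, Finset.card_erase_add_one]
      exact Finset.mem_sdiff.mpr ⟨hxB, hx⟩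
    have hprod : ∏ C ∈ c.2, s.gf ((s.pr c.2 C \ insert x M).card) =
        s.gf ((s.pr c.2 B \ insert x M).card) *
          ∏ C ∈ c.2.erase B, s.gf ((s.pr c.2 C \ M).card) := by
      rw [← Finset.mul_prod_erase _ _ hB]
      congr 1
      refine Finset.prod_congr rfl fun C hC => ?_
      have hC' := Finset.mem_erase.mp hC
      congr 2
      ext a
      simp only [Finset.mem_sdiff, Finset.mem_insert]
      constructor
      · rintro ⟨h1, h2⟩; exact ⟨h1, by tauto⟩
      · rintro ⟨h1, h2⟩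
        refine ⟨h1, ?_⟩
        rintro (rfl | h3)
        · exact s.pr_disj hB hC'.2 hC'.1.symm hxB h1
        · exact h2 h3
    rw [hprod, ← Finset.mul_prod_erase _ (fun C => s.gf ((s.pr c.2 C \ M).card)) hB]
    rcases le_or_gt (s.pr c.2 B \ M).card s.r0 with hr | hr
    · have hII : s.tIIT M x c := ⟨B, hB, hxB, hr⟩
      have hI : ¬ s.tIT M x c := fun h => s.tIT_excl h hII
      rw [if_neg hI, if_pos hII]
      have : s.gf ((s.pr c.2 B \ insert x M).card) = s.f * s.gf ((s.pr c.2 B \ M).card) := by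
        rw [hcard]; exact s.gf_stepII (by omega)
      rw [this]; ring
    · have hI : s.tIT M x c := ⟨B, hB, hxB, hr⟩
      have hII : ¬ s.tIIT M x c := s.tIT_excl hI
      rw [if_pos hI, if_neg hII]
      have : s.gf ((s.pr c.2 B \ insert x M).card) = s.b * s.gf ((s.pr c.2 B \ M).card) := by
        rw [hcard]; exact s.gf_stepI (by omega)
      rw [this]; ring
  · have hI : ¬ s.tIT M x c := fun ⟨B, h1, h2, _⟩ => hB ⟨B, h1, h2⟩
    have hII : ¬ s.tIIT M x c := fun ⟨B, h1, h2, _⟩ => hB ⟨B, h1, h2⟩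
    rw [if_neg hI, if_neg hII]
    have : ∏ C ∈ c.2, s.gf ((s.pr c.2 C \ insert x M).card) =
        ∏ C ∈ c.2, s.gf ((s.pr c.2 C \ M).card) := by
      refine Finset.prod_congr rfl fun C hC => ?_
      congr 2
      ext a
      simp only [Finset.mem_sdiff, Finset.mem_insert]
      constructor
      · rintro ⟨h1, h2⟩; exact ⟨h1, by tauto⟩
      · rintro ⟨h1, h2⟩
        refine ⟨h1, ?_⟩
        rintro (rfl | h3)
        · exact hB ⟨C, hC, h1⟩
        · exact h2 h3
    rw [this]; ring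

open Classical in
theorem factor_anti {M M' : Finset V} (hM : M ⊆ M') (x : V) (c : I × Finset I) :
    (1 + (if s.tIT M' x c then s.b - 1 else 0) + (if s.tIIT M' x c then s.f - 1 else 0)) ≤
    (1 + (if s.tIT M x c then s.b - 1 else 0) + (if s.tIIT M x c then s.f - 1 else 0)) := by
  have hb := s.b_gt1
  have hf := s.hf1
  have hfb := s.hfb
  by_cases h1 : s.tIT M' x c
  · have h2 := s.tIT_excl h1
    have h3 : s.tIT M x c := by
      obtain ⟨B, hB, hx, h⟩ := h1
      exact ⟨B, hB, hx, lt_of_lt_of_le h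
        (Finset.card_le_card (Finset.sdiff_subset_sdiff (Finset.Subset.refl _) hM))⟩
    have h4 := s.tIT_excl h3
    rw [if_pos h1, if_neg h2, if_pos h3, if_neg h4]
  · by_cases h2 : s.tIIT M' x c
    · rw [if_neg h1, if_pos h2]
      by_cases h3 : s.tIT M x c
      · have h4 := s.tIT_excl h3
        rw [if_pos h3, if_neg h4]; linarith
      · have h4 : s.tIIT M x c := by
          obtain ⟨B, hB, hx, h⟩ := h2
          refine ⟨B, hB, hx, ?_⟩
          by_contra h5
          exact h3 ⟨B, hB, hx, by omega⟩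
        rw [if_neg h3, if_pos h4]
    · rw [if_neg h1, if_neg h2]
      split_ifs <;> linarith

open Classical in
/-- several Maker points -/
theorem wT_move (M Y : Finset V) (L : I → Finset V) (Δ : Finset V) (hΔ : Disjoint Δ M)
    (c : I × Finset I) :
    s.wT (M ∪ Δ) Y L c ≤ s.wT M Y L c * ∏ x ∈ Δ,
      (1 + (if s.tIT M x c then s.b - 1 else 0) + (if s.tIIT M x c then s.f - 1 else 0)) := by
  induction Δ using Finset.induction_on with
  | empty => simp
  | insert x Δ hx ih =>
    have h1 : Disjoint Δ M := by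
      rw [Finset.disjoint_insert_left] at hΔ; exact hΔ.2
    have h2 : x ∉ M := by
      rw [Finset.disjoint_insert_left] at hΔ; exact hΔ.1
    have h3 : M ∪ insert x Δ = insert x (M ∪ Δ) := by
      rw [Finset.union_insert]
    rw [h3, s.wT_insert (M ∪ Δ) Y L x (by simp [h2, hx]) c, Finset.prod_insert hx]
    have h4 := ih h1
    have h5 := s.factor_anti (M := M) (M' := M ∪ Δ) Finset.subset_union_left x c
    have h6 : 0 ≤ 1 + (if s.tIT (M ∪ Δ) x c then s.b - 1 else 0)
        + (if s.tIIT (M ∪ Δ) x c then s.f - 1 else 0) := by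
      have hb := s.b_gt1
      have hf := s.hf1
      split_ifs <;> linarith
    have h7 := s.wT_nonneg M Y L c
    have h8 : 0 ≤ s.wT M Y L c * ∏ x ∈ Δ,
      (1 + (if s.tIT M x c then s.b - 1 else 0) + (if s.tIIT M x c then s.f - 1 else 0)) :=
      (s.wT_nonneg (M ∪ Δ) Y L c).trans h4
    calc s.wT (M ∪ Δ) Y L c * _ ≤ (s.wT M Y L c * ∏ x ∈ Δ,
      (1 + (if s.tIT M x c then s.b - 1 else 0) + (if s.tIIT M x c then s.f - 1 else 0))) *
        (1 + (if s.tIT M x c then s.b - 1 else 0) + (if s.tIIT M x c then s.f - 1 else 0)) :=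
          mul_le_mul h4 h5 h6 h8
      _ = _ := by ring

end Sys

end Pool.Agent.Helper83.L4
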