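import Mathlib
import Pool.Agent.Helper83.L4.Sys
import Pool.Agent.Helper83.L4.Geo

set_option autoImplicit false

/-! The system of the aligned rectangle lattices. -/

namespace Pool.Agent.Helper83.L4

open Finset

/-- the square board -/
noncomputable def brd (N : ℕ) : Finset (ℤ × ℤ) := Icc (1 : ℤ) N ×ˢ Icc (1 : ℤ) N

/-- the lattice attached to a pair of progressions -/
noncomputable def lt2 (q : ℕ) (i : (ℤ × ℤ) × (ℤ × ℤ)) : Finset (ℤ × ℤ) := ap q i.1 ×ˢ ap q i.2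

/-- its neighbourhood -/
noncomputable def ex2 (N q : ℕ) (i : (ℤ × ℤ) × (ℤ × ℤ)) : Finset (ℤ × ℤ) :=
  ex N q i.1 ×ˢ ex N q i.2

theorem inter_card (q : ℕ) (A B C D : Finset ℤ) (hA : A.card ≤ q) (hB : B.card ≤ q)
    (h : q < ((A ×ˢ B) ∩ (C ×ˢ D)).card) : 2 ≤ (A ∩ C).card ∧ 2 ≤ (B ∩ D).card := by
  rw [Finset.product_inter_product, card_product] at h
  exact two_two ((card_le_card inter_subset_left).trans hA)
    ((card_le_card inter_subset_left).trans hB) h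

theorem exists_sysA (N q : ℕ) (P : Num) (hn : P.n = q ^ 2) (hq' : P.q = q)
    (hr : P.r = 625 * q ^ 16) (he : P.e = 25 * q ^ 6)
    (hd1 : P.d1 = 25 * q ^ 6 * N ^ 2) (hd2 : P.d2 = 5 * q ^ 5 * N)
    (hcS : P.cS = N ^ 2) (hcI : P.cI = N ^ 4) :
    ∃ s : Sys (ℤ × ℤ) (↥(Ix N q) × ↥(Ix N q)), s.S = brd N ∧
      ∀ i, s.A i = lt2 q (i.1.1, i.2.1) := by
  have hPQ := PQ_card q
  have hex : ∀ t, (ex N q t).card ≤ 5 * q ^ 3 := fun t => (ex_card N q t).trans hPQ
  have g1 : (brd N).card ≤ P.cS := by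
    rw [hcS]
    unfold brd
    rw [card_product, Int.card_Icc]
    have h1 : ((N : ℤ) + 1 - 1).toNat = N := by
      rw [add_sub_cancel_right]; exact Int.toNat_natCast N
    rw [h1, sq]
  have g2 : Fintype.card (↥(Ix N q) × ↥(Ix N q)) ≤ P.cI := by
    rw [hcI, Fintype.card_prod, Fintype.card_coe]
    calc (Ix N q).card * (Ix N q).card ≤ N ^ 2 * N ^ 2 :=
          Nat.mul_le_mul (Ix_card N q) (Ix_card N q)
      _ = N ^ 4 := by ring
  have g3 : ∀ i : ↥(Ix N q) × ↥(Ix N q), lt2 q (i.1.1, i.2.1) ⊆ brd N := fun i =>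
    product_subset_product (mem_Ix i.1.2).2.2.2.2 (mem_Ix i.2.2).2.2.2.2
  have g4 : ∀ i : ↥(Ix N q) × ↥(Ix N q), ex2 N q (i.1.1, i.2.1) ⊆ brd N := fun i =>
    product_subset_product (ex_sub _ _ _) (ex_sub _ _ _)
  have g5 : ∀ i : ↥(Ix N q) × ↥(Ix N q), (lt2 q (i.1.1, i.2.1)).card = P.n := by
    intro i
    rw [hn]
    unfold lt2
    rw [card_product]
    have h1 : i.1.1.2 ≠ 0 := by have := (mem_Ix i.1.2).2.2.1; omega
    have h2 : i.2.1.2 ≠ 0 := by have := (mem_Ix i.2.2).2.2.1; omega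
    rw [ap_card h1, ap_card h2, sq]
  have g6 : ∀ i j : ↥(Ix N q) × ↥(Ix N q),
      P.q < (lt2 q (i.1.1, i.2.1) ∩ lt2 q (j.1.1, j.2.1)).card →
      lt2 q (i.1.1, i.2.1) ⊆ ex2 N q (j.1.1, j.2.1) := by
    intro i j h
    rw [hq'] at h
    obtain ⟨h1, h2⟩ := inter_card q _ _ _ _ (ap_card_le _ _) (ap_card_le _ _) h
    exact product_subset_product (ap_sub_ex i.1.2 j.1.2 h1) (ap_sub_ex i.2.2 j.2.2 h2)
  have g7 : ∀ j : ↥(Ix N q) × ↥(Ix N q),
      (univ.filter fun i : ↥(Ix N q) × ↥(Ix N q) =>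
        P.q < (lt2 q (i.1.1, i.2.1) ∩ ex2 N q (j.1.1, j.2.1)).card).card ≤ P.r := by
    intro j
    rw [hr, hq']
    have hsub : (univ.filter fun i : ↥(Ix N q) × ↥(Ix N q) =>
        q < (lt2 q (i.1.1, i.2.1) ∩ ex2 N q (j.1.1, j.2.1)).card) ⊆
        (univ.filter fun a : ↥(Ix N q) => 2 ≤ (ap q a.1 ∩ ex N q j.1.1).card) ×ˢ
        (univ.filter fun b : ↥(Ix N q) => 2 ≤ (ap q b.1 ∩ ex N q j.2.1).card) := by
      intro i hi
      rw [mem_filter] at hi
      obtain ⟨h1, h2⟩ := inter_card q _ _ _ _ (ap_card_le _ _) (ap_card_le _ _) hi.2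
      rw [mem_product, mem_filter, mem_filter]
      exact ⟨⟨mem_univ _, h1⟩, mem_univ _, h2⟩
    have hb : ∀ j0 : ℤ × ℤ,
        (univ.filter fun a : ↥(Ix N q) => 2 ≤ (ap q a.1 ∩ ex N q j0).card).card ≤
        (5 * q ^ 3) ^ 2 * q ^ 2 := by
      intro j0
      refine (card_sub_filter (Ix N q) (fun t => 2 ≤ (ap q t ∩ ex N q j0).card)).trans ?_
      refine (count_ap N q (ex N q j0)).trans ?_
      exact Nat.mul_le_mul_right _ (Nat.pow_le_pow_left (hex j0) 2)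
    refine (card_le_card hsub).trans ?_
    rw [card_product]
    refine (Nat.mul_le_mul (hb j.1.1) (hb j.2.1)).trans (le_of_eq ?_)
    ring
  have g8 : ∀ i : ↥(Ix N q) × ↥(Ix N q),
      (univ.filter fun j : ↥(Ix N q) × ↥(Ix N q) =>
        P.q < (lt2 q (i.1.1, i.2.1) ∩ ex2 N q (j.1.1, j.2.1)).card).card ≤ P.r := by
    intro i
    rw [hr, hq']
    have hsub : (univ.filter fun j : ↥(Ix N q) × ↥(Ix N q) =>
        q < (lt2 q (i.1.1, i.2.1) ∩ ex2 N q (j.1.1, j.2.1)).card) ⊆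
        (univ.filter fun a : ↥(Ix N q) => 2 ≤ (ap q i.1.1 ∩ ex N q a.1).card) ×ˢ
        (univ.filter fun b : ↥(Ix N q) => 2 ≤ (ap q i.2.1 ∩ ex N q b.1).card) := by
      intro j hj
      rw [mem_filter] at hj
      obtain ⟨h1, h2⟩ := inter_card q _ _ _ _ (ap_card_le _ _) (ap_card_le _ _) hj.2
      rw [mem_product, mem_filter, mem_filter]
      exact ⟨⟨mem_univ _, h1⟩, mem_univ _, h2⟩
    have hb : ∀ i0 : ℤ × ℤ,
        (univ.filter fun a : ↥(Ix N q) => 2 ≤ (ap q i0 ∩ ex N q a.1).card).card ≤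
        q ^ 2 * (5 * q ^ 3) ^ 2 := by
      intro i0
      refine (card_sub_filter (Ix N q) (fun t => 2 ≤ (ap q i0 ∩ ex N q t).card)).trans ?_
      refine (count_ex N q (ap q i0)).trans ?_
      exact Nat.mul_le_mul (Nat.pow_le_pow_left (ap_card_le q i0) 2) (Nat.pow_le_pow_left hPQ 2)
    refine (card_le_card hsub).trans ?_
    rw [card_product]
    refine (Nat.mul_le_mul (hb i.1.1) (hb i.2.1)).trans (le_of_eq ?_)
    ring
  have g9 : ∀ j : ↥(Ix N q) × ↥(Ix N q), (ex2 N q (j.1.1, j.2.1)).card ≤ P.e := by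
    intro j
    rw [he]
    unfold ex2
    rw [card_product]
    refine (Nat.mul_le_mul (hex _) (hex _)).trans (le_of_eq ?_)
    ring
  have g10 : ∀ z : ℤ × ℤ, (univ.filter fun j : ↥(Ix N q) × ↥(Ix N q) =>
      z ∈ ex2 N q (j.1.1, j.2.1)).card ≤ P.d1 := by
    intro z
    rw [hd1]
    have hsub : (univ.filter fun j : ↥(Ix N q) × ↥(Ix N q) =>
        z ∈ ex2 N q (j.1.1, j.2.1)) ⊆
        (univ.filter fun a : ↥(Ix N q) => z.1 ∈ ex N q a.1) ×ˢ
        (univ.filter fun b : ↥(Ix N q) => z.2 ∈ ex N q b.1) := by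
      intro j hj
      rw [mem_filter] at hj
      have h1 := mem_product.mp hj.2
      rw [mem_product, mem_filter, mem_filter]
      exact ⟨⟨mem_univ _, h1.1⟩, mem_univ _, h1.2⟩
    have hb : ∀ z0 : ℤ, (univ.filter fun a : ↥(Ix N q) => z0 ∈ ex N q a.1).card ≤
        5 * q ^ 3 * N := by
      intro z0
      refine (card_sub_filter (Ix N q) (fun t => z0 ∈ ex N q t)).trans ?_
      exact (count_ex1 N q z0).trans (Nat.mul_le_mul_right _ hPQ)
    refine (card_le_card hsub).trans ?_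
    rw [card_product]
    refine (Nat.mul_le_mul (hb z.1) (hb z.2)).trans (le_of_eq ?_)
    ring
  have g11 : ∀ x z : ℤ × ℤ, x ≠ z → (univ.filter fun j : ↥(Ix N q) × ↥(Ix N q) =>
      x ∈ lt2 q (j.1.1, j.2.1) ∧ z ∈ ex2 N q (j.1.1, j.2.1)).card ≤ P.d2 := by
    intro x z hxz
    rw [hd2]
    have hp : ∀ a b : ℤ, a ≠ b → (univ.filter fun t : ↥(Ix N q) =>
        a ∈ ap q t.1 ∧ b ∈ ex N q t.1).card ≤ q * (5 * q ^ 3) := by
      intro a b hab
      refine (card_sub_filter (Ix N q) (fun t => a ∈ ap q t ∧ b ∈ ex N q t)).trans ?_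
      exact (count_pair N q a b hab).trans (Nat.mul_le_mul_left _ hPQ)
    have hs : ∀ a : ℤ, (univ.filter fun t : ↥(Ix N q) => a ∈ ap q t.1).card ≤ q * N := by
      intro a
      refine (card_sub_filter (Ix N q) (fun t => a ∈ ap q t)).trans ?_
      exact count_ap1 N q a
    by_cases h1 : x.1 = z.1
    · have h2 : x.2 ≠ z.2 := fun h2 => hxz (Prod.ext h1 h2)
      have hsub : (univ.filter fun j : ↥(Ix N q) × ↥(Ix N q) =>
          x ∈ lt2 q (j.1.1, j.2.1) ∧ z ∈ ex2 N q (j.1.1, j.2.1)) ⊆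
          (univ.filter fun a : ↥(Ix N q) => x.1 ∈ ap q a.1) ×ˢ
          (univ.filter fun b : ↥(Ix N q) => x.2 ∈ ap q b.1 ∧ z.2 ∈ ex N q b.1) := by
        intro j hj
        rw [mem_filter] at hj
        have h3 := mem_product.mp hj.2.1
        have h4 := mem_product.mp hj.2.2
        rw [mem_product, mem_filter, mem_filter]
        exact ⟨⟨mem_univ _, h3.1⟩, mem_univ _, h3.2, h4.2⟩
      refine (card_le_card hsub).trans ?_
      rw [card_product]
      refine (Nat.mul_le_mul (hs x.1) (hp x.2 z.2 h2)).trans (le_of_eq ?_)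
      ring
    · have hsub : (univ.filter fun j : ↥(Ix N q) × ↥(Ix N q) =>
          x ∈ lt2 q (j.1.1, j.2.1) ∧ z ∈ ex2 N q (j.1.1, j.2.1)) ⊆
          (univ.filter fun a : ↥(Ix N q) => x.1 ∈ ap q a.1 ∧ z.1 ∈ ex N q a.1) ×ˢ
          (univ.filter fun b : ↥(Ix N q) => x.2 ∈ ap q b.1) := by
        intro j hj
        rw [mem_filter] at hj
        have h3 := mem_product.mp hj.2.1
        have h4 := mem_product.mp hj.2.2
        rw [mem_product, mem_filter, mem_filter]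
        exact ⟨⟨mem_univ _, h3.1, h4.1⟩, mem_univ _, h3.2⟩
      refine (card_le_card hsub).trans ?_
      rw [card_product]
      refine (Nat.mul_le_mul (hp x.1 z.1 h1) (hs x.2)).trans (le_of_eq ?_)
      ring
  exact ⟨⟨P, brd N, fun i => lt2 q (i.1.1, i.2.1), fun i => ex2 N q (i.1.1, i.2.1), g1, g2, g3,
    g4, g5, g6, g7, g8, g9, g10, g11⟩, rfl, fun i => rfl⟩

end Pool.Agent.Helper83.L4
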