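import Mathlib
import Pool.Agent.Helper32.Lat.Numerics
import Pool.Agent.Helper83.L4.NumDef

set_option autoImplicit false

/-! Numerics of Breaker's strategy, in a general form with explicit thresholds. -/

namespace Pool.Agent.Helper83.L4

open Pool.Agent.Helper32.Lat (E2 E2_pos E2_add E2_le E2_inv E2_nat E2_pow mul_le_E2 pow_le_E2
  num_le_E2 bb bb_pos bb_inv_pow bb_inv_pow_ge bb_pow_le fb fb_pos fb_ge fb_le fb_pow_ge
  fb_inv_pow_le fb_inv_pow_ge)

theorem num_gen (κ q : ℕ) (hκ : 200 ≤ κ) (hq0 : 10 ^ 6 * κ ^ 2 ≤ q) (Y : ℝ) (hY : 1 ≤ Y)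
    (hYq : Y ^ 2 ≤ (2 : ℝ) ^ ((1 - 1 / (κ : ℝ)) * (q : ℝ) ^ 2))
    (r e d1 d2 cS cI : ℕ) (hr : (r : ℝ) ≤ 10 ^ 8 * (q : ℝ) ^ 30)
    (he : (e : ℝ) ≤ 10 ^ 8 * (q : ℝ) ^ 20)
    (hd1 : (d1 : ℝ) ≤ 10 ^ 8 * (q : ℝ) ^ 20 * Y ^ 2)
    (hd2 : (d2 : ℝ) ≤ 10 ^ 8 * (q : ℝ) ^ 20 * Y)
    (hcS : (cS : ℝ) ≤ Y ^ 2) (hcI : (cI : ℝ) ≤ 10 ^ 8 * Y ^ 4) :
    ∃ P : Num, P.n = q ^ 2 ∧ P.q = q ∧ P.r = r ∧ P.e = e ∧
      P.d1 = d1 ∧ P.d2 = d2 ∧ P.cS = cS ∧ P.cI = cI := by
  have hκr : (200 : ℝ) ≤ κ := by exact_mod_cast hκ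
  have hκ1 : 1 ≤ κ := by omega
  have hκpos : (0 : ℝ) < κ := by linarith
  have hqκ : (10 ^ 6 : ℝ) * (κ : ℝ) ^ 2 ≤ q := by exact_mod_cast hq0
  set u : ℝ := (q : ℝ) with hu
  have hκ2 : (2500 : ℝ) ≤ (κ : ℝ) ^ 2 := by nlinarith
  have hu1 : (2500000000 : ℝ) ≤ u := by nlinarith
  have hu0 : 0 < u := by linarith
  have hq2 : 2 ≤ q := by
    have : (2 : ℝ) ≤ (q : ℝ) := by linarith
    exact_mod_cast this
  set n : ℝ := u ^ 2 with hn
  set D : ℝ := n / κ with hD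
  have hn0 : 0 < n := by positivity
  have hD0 : 0 < D := by positivity
  have hκD : κ * D = n := by rw [hD]; field_simp
  have hDn : 200 * D ≤ n := by rw [← hκD]; nlinarith
  set v : ℝ := κ * u with hv
  have hvD : 10 ^ 6 * v ≤ D := by
    rw [hD, le_div_iff₀ hκpos, hv, hn]
    nlinarith
  have huv : 50 * u ≤ v := by rw [hv]; nlinarith
  have hκv : (κ : ℝ) ≤ v := by rw [hv]; nlinarith
  -- polynomial factors
  have hpoly : (10 ^ 12 : ℝ) * u ^ 30 ≤ E2 (D / 1000) := by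
    have h1 : (10 ^ 12 : ℝ) ≤ 2 ^ 40 := by norm_num
    have h2 : u ≤ 2 ^ q := by
      have : q ≤ 2 ^ q := (Nat.lt_two_pow_self).le
      rw [hu]
      exact_mod_cast this
    have h3 : u ^ 30 ≤ E2 (30 * u) := by
      have h := pow_le_pow_left₀ hu0.le h2 30
      rw [← E2_nat, E2_pow] at h
      refine h.trans (le_of_eq ?_)
      rw [hu]
      norm_num
    have h4 : (10 ^ 12 : ℝ) ≤ E2 40 := num_le_E2 40 h1 (by norm_num)
    exact mul_le_E2 h4 h3 (by positivity) (by linarith)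
  have hu30 : ∀ k : ℕ, k ≤ 30 → u ^ k ≤ u ^ 30 := fun k hk =>
    pow_le_pow_right₀ (by linarith) hk
  have hu30' : (0 : ℝ) < u ^ 30 := by positivity
  have hpolyk : ∀ (k : ℕ) (c : ℝ), k ≤ 30 → 0 ≤ c → c ≤ 10 ^ 12 → c * u ^ k ≤ E2 (D / 1000) := by
    intro k c hk hc hc'
    refine le_trans ?_ hpoly
    exact mul_le_mul hc' (hu30 k hk) (by positivity) (by positivity)
  -- the size
  have hY0 : 0 ≤ Y := by linarith
  have hY2 : Y ^ 2 ≤ E2 (n - D) := by
    refine hYq.trans (le_of_eq ?_)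
    unfold E2
    congr 1
    rw [hD, hn]
    ring
  have hY4 : Y ^ 4 ≤ E2 (2 * (n - D)) := by
    have h1 : Y ^ 4 = (Y ^ 2) ^ 2 := by ring
    rw [h1]
    exact pow_le_E2 (by positivity) hY2 (by push_cast; linarith)
  have hY1 : Y ≤ E2 ((n - D) / 2) := by
    apply le_of_pow_le_pow_left₀ (two_ne_zero) (E2_pos _).le
    rw [E2_pow]
    refine le_trans hY2 (E2_le ?_)
    push_cast
    linarith
  -- nat parameters
  have hqq : ((q ^ 2 : ℕ) : ℝ) = n := by push_cast; rfl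
  set r0 : ℕ := q ^ 2 / κ with hr0
  set h : ℕ := q ^ 2 / (100 * κ) with hh
  have hr0le : (r0 : ℝ) ≤ D := by
    rw [hD, ← hqq]
    exact Nat.cast_div_le
  have hr0ge : D - 1 ≤ (r0 : ℝ) := by
    have h1 : q ^ 2 < κ * (r0 + 1) := Nat.lt_mul_div_succ _ (by omega)
    have h2 : n < κ * ((r0 : ℝ) + 1) := by rw [← hqq]; exact_mod_cast h1
    rw [hD]
    have : n / κ < (r0 : ℝ) + 1 := by
      rw [div_lt_iff₀ hκpos]; linarith
    linarith
  have hhle : (h : ℝ) ≤ D / 100 := by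
    have h1 : (h : ℝ) ≤ ((q ^ 2 : ℕ) : ℝ) / ((100 * κ : ℕ) : ℝ) := Nat.cast_div_le
    rw [hqq] at h1
    refine h1.trans (le_of_eq ?_)
    rw [hD]
    push_cast
    field_simp
  have hhge : D / 100 - 1 ≤ (h : ℝ) := by
    have h1 : q ^ 2 < (100 * κ) * (h + 1) := Nat.lt_mul_div_succ _ (by omega)
    have h2 : n < (100 * κ) * ((h : ℝ) + 1) := by rw [← hqq]; exact_mod_cast h1
    have h3 : D < 100 * ((h : ℝ) + 1) := by
      rw [hD, div_lt_iff₀ hκpos]; linarith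
    linarith
  have h8 : 8 * h ≤ r0 := by
    have : (8 : ℝ) * h ≤ r0 := by nlinarith
    exact_mod_cast this
  have hmq : 5 * κ * q ≤ h := by
    have : (5 : ℝ) * κ * q ≤ h := by
      have : (5 : ℝ) * κ * q = 5 * v := by rw [hv]; ring
      rw [this]; linarith
    exact_mod_cast this
  have hr0n : r0 + 5 * κ * q ≤ q ^ 2 := by
    have : (r0 : ℝ) + 5 * κ * q ≤ ((q ^ 2 : ℕ) : ℝ) := by
      have : (5 : ℝ) * κ * q = 5 * v := by rw [hv]; ring
      rw [this, hqq]; linarith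
    exact_mod_cast this
  have h30q : 30 * q ≤ q ^ 2 := by
    have : (30 : ℝ) * q ≤ ((q ^ 2 : ℕ) : ℝ) := by
      rw [hqq]
      show 30 * u ≤ n
      linarith
    exact_mod_cast this
  have h900 : 900 * q ≤ 30 * q ^ 2 := by omega
  have hr08 : (((r0 - 8 * h : ℕ)) : ℝ) = (r0 : ℝ) - 8 * h := by
    rw [Nat.cast_sub h8]; push_cast; ring
  have hbm : ((q ^ 2 - 5 * κ * q : ℕ) : ℝ) = n - 5 * v := by
    rw [Nat.cast_sub (by omega), hqq]; push_cast; rw [hv]; ring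
  have hb0 := bb_pos hq2
  have hfp := fb_pos
  have hfi : (0 : ℝ) < fb⁻¹ := inv_pos.2 hfp
  have hn12 : 12 * 10 ^ 6 ≤ n := by nlinarith
  -- the base of hT1
  set W : ℝ := (bb q)⁻¹ ^ r0 * fb ^ (r0 - 8 * h) with hW
  have hWpos : 0 < W := by positivity
  have hWge : E2 (-D + 4 / 7 * (23 / 25 * D - 1)) ≤ W := by
    have h1 := bb_inv_pow_ge r0 hq2
    have h2 := fb_pow_ge (r0 - 8 * h)
    have h3 : E2 (-(r0 : ℝ)) * E2 (4 / 7 * ((r0 - 8 * h : ℕ) : ℝ)) ≤ W :=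
      mul_le_mul h1 h2 (E2_pos _).le (by positivity)
    refine le_trans ?_ h3
    rw [E2_add, hr08]
    apply E2_le
    linarith
  set K : ℝ := E2 (-(95 / 100 * D)) with hK
  have hKpos : 0 < K := E2_pos _
  set β : ℝ := E2 (-(9 / 10 * D)) with hβ
  have hβpos : 0 < β := E2_pos _
  have h16 : E2 (-4) ≤ 1 / 9 := by
    have h6 : (-4 : ℝ) = -((4 : ℕ) : ℝ) := by norm_num
    rw [h6, ← E2_inv, E2_nat]; norm_num
  refine ⟨{
    n := q ^ 2, q := q, r := r, e := e,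
    d1 := d1, d2 := d2, cS := cS,
    cI := cI, m := 5 * κ, Q := 30, h := h, r0 := r0, b := bb q, f := fb,
    β := β, η := 1 / n, K := K, l1 := 2 / W ^ (5 * κ), l2 := 2 / (K / 2) ^ 30,
    l3 := 2 / fb⁻¹ ^ (32 * h),
    hqn := ?_, hf1 := ?_, hfb := ?_, hη := ?_, hbη := ?_, hfη := ?_, hβ := ?_, hl1 := ?_,
    hl2 := ?_, hl3 := ?_, hr0n := ?_, hQn := ?_, hβ1 := ?_, hT1 := ?_, hC1 := ?_,
    hK := ?_, hKr := ?_, hC2 := ?_, hT2 := ?_, hC3 := ?_, hT3 := ?_, hzone := ?_, hmq := ?_,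
    hqh := ?_, h8 := ?_, hPB := ?_ }, rfl, rfl, rfl, rfl, rfl, rfl, rfl, rfl⟩
  · nlinarith
  · unfold fb; norm_num
  · unfold fb bb
    have : 2 / ((q : ℝ) ^ 2) ≤ 1 / 2 := by
      rw [div_le_div_iff₀ (by positivity) (by norm_num)]
      show (2 : ℝ) * 2 ≤ 1 * n
      linarith
    linarith
  · positivity
  · unfold bb
    show 2 - 2 / n - 1 + 1 / n ≤ 1
    have : 2 / n = 2 * (1 / n) := by ring
    have h0 : 0 < 1 / n := by positivity
    rw [this]; linarith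
  · unfold fb
    have : 1 / n ≤ 1 / 100 := by
      rw [div_le_div_iff₀ (by positivity) (by norm_num)]
      linarith
    linarith
  · exact hβpos
  · positivity
  · positivity
  · positivity
  · exact hr0n
  · exact h30q
  · -- hβ1
    have h1 : ((q ^ 2 : ℕ) : ℝ) * (d1 : ℝ) ≤ (10 ^ 8 * u ^ 22) * Y ^ 2 := by
      rw [hqq]
      calc n * (d1 : ℝ) ≤ n * (10 ^ 8 * u ^ 20 * Y ^ 2) := mul_le_mul_of_nonneg_left hd1 hn0.le
        _ = _ := by rw [hn]; ring
    have h3 : ((q ^ 2 : ℕ) : ℝ) * (d1 : ℝ) ≤ E2 (D / 1000 + (n - D)) :=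
      h1.trans (mul_le_E2 (hpolyk 22 _ (by norm_num) (by norm_num) (by norm_num)) hY2
        (by positivity) le_rfl)
    refine mul_le_E2 h3 (bb_inv_pow hq2 (Nat.sub_le _ _)) (by positivity) ?_
    rw [hbm]
    linarith
  · -- hT1
    have hWm : 2 / W ^ (5 * κ) ≤ E2 (1 + (83 / 35 * n + 3 * v)) := by
      have h1 : E2 (-(83 / 35 * n + 3 * v)) ≤ W ^ (5 * κ) := by
        have h2 := pow_le_pow_left₀ (E2_pos _).le hWge (5 * κ)
        rw [E2_pow] at h2
        refine le_trans (E2_le ?_) h2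
        push_cast
        have : 5 * (κ : ℝ) * (-D + 4 / 7 * (23 / 25 * D - 1))
            = -(83 / 35 * (κ * D)) - 20 / 7 * κ := by ring
        rw [this, hκD]
        linarith
      rw [div_eq_mul_inv]
      refine mul_le_E2 (x := 1) (y := 83 / 35 * n + 3 * v) (num_le_E2 1 (by norm_num) (by norm_num))
        ?_ (by positivity) le_rfl
      have h3 := inv_anti₀ (E2_pos _) h1
      rw [E2_inv, neg_neg] at h3
      exact h3
    have hβm : β ^ (5 * κ) ≤ E2 (-(9 / 2 * n)) := by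
      rw [hβ, E2_pow]
      apply E2_le
      push_cast
      have : 5 * (κ : ℝ) * -(9 / 10 * D) = -(9 / 2 * (κ * D)) := by ring
      rw [this, hκD]
    have hm1 : (((5 * κ : ℕ) : ℝ) + 1) ≤ E2 (D / 1000) := by
      have h1 := hpolyk 1 1 (by norm_num) (by norm_num) (by norm_num)
      refine le_trans ?_ h1
      push_cast
      rw [one_mul, pow_one]
      nlinarith
    have hcI' : (cI : ℝ) ≤ E2 (27 + 2 * (n - D)) := by
      refine hcI.trans ?_
      exact mul_le_E2 (x := 27) (num_le_E2 27 (by norm_num) (by norm_num)) hY4 (by positivity)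
        le_rfl
    have h5 : 2 / W ^ (5 * κ) * β ^ (5 * κ) * (((5 * κ : ℕ) : ℝ) + 1)
        * (cI : ℝ) ≤ E2 (-4) := by
      refine mul_le_E2 (mul_le_E2 (mul_le_E2 hWm hβm (by positivity) le_rfl) hm1
        (by positivity) le_rfl) hcI' (by positivity) ?_
      linarith
    exact h5.trans h16
  · -- hC1
    rw [div_mul_cancel₀ _ (by positivity)]
    norm_num
  · exact hKpos
  · -- hKr
    push_cast
    have h1 : 2 * (30 * ((r : ℝ) * (bb q)⁻¹ ^ r0)) ≤ (60 * 10 ^ 8 * u ^ 30) * (bb q)⁻¹ ^ r0 := by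
      have h2 : (0 : ℝ) ≤ (bb q)⁻¹ ^ r0 := by positivity
      calc 2 * (30 * ((r : ℝ) * (bb q)⁻¹ ^ r0)) = (60 * (r : ℝ)) * (bb q)⁻¹ ^ r0 := by ring
        _ ≤ (60 * (10 ^ 8 * u ^ 30)) * (bb q)⁻¹ ^ r0 :=
            mul_le_mul_of_nonneg_right (mul_le_mul_of_nonneg_left hr (by norm_num)) h2
        _ = _ := by ring
    refine h1.trans ?_
    refine mul_le_E2 (hpolyk 30 _ le_rfl (by norm_num) (by norm_num))
      (bb_inv_pow hq2 (by omega)) (by positivity) ?_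
    linarith
  · -- hC2
    rw [div_mul_cancel₀ _ (by positivity)]
    norm_num
  · -- hT2
    have hl2 : 2 / (K / 2) ^ 30 ≤ E2 (31 + 57 / 2 * D) := by
      have h1 : K / 2 = E2 (-(95 / 100 * D) - 1) := by
        have h2 : E2 (-1) = 1 / 2 := by
          have h6 : (-1 : ℝ) = -((1 : ℕ) : ℝ) := by norm_num
          rw [h6, ← E2_inv, E2_nat]; norm_num
        have h3 : -(95 / 100 * D) - 1 = -(95 / 100 * D) + (-1) := by ring
        rw [h3, ← E2_add, h2, hK]; ring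
      rw [h1, E2_pow, div_eq_mul_inv, E2_inv]
      refine mul_le_E2 (x := 1) (num_le_E2 1 (by norm_num) (by norm_num)) le_rfl (E2_pos _).le ?_
      push_cast
      linarith
    have hcS' : (cS : ℝ) ^ 2 ≤ E2 (2 * (n - D)) := by
      refine le_trans (pow_le_pow_left₀ (Nat.cast_nonneg _) hcS 2) ?_
      refine le_trans (le_of_eq (by ring)) hY4
    have hd2' : (d2 : ℝ) ^ 30 ≤ E2 (30 * (D / 1000 + (n - D) / 2)) := by
      have h1 : (d2 : ℝ) ≤ E2 (D / 1000 + (n - D) / 2) :=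
        hd2.trans (mul_le_E2 (hpolyk 20 _ (by norm_num) (by norm_num) (by norm_num)) hY1
          (by positivity) le_rfl)
      exact pow_le_E2 (by positivity) h1 (by norm_num)
    have hff : fb⁻¹ ^ (30 * q ^ 2 - 30 ^ 2 * q) ≤ E2 (-(4 / 7 * (30 * n - 900 * u))) := by
      refine (fb_inv_pow_le _).trans (le_of_eq ?_)
      congr 3
      rw [Nat.cast_sub (by omega)]
      push_cast
      rw [hn]
    have h5 : 2 / (K / 2) ^ 30 * (cS : ℝ) ^ 2 * (d2 : ℝ) ^ 30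
        * fb⁻¹ ^ (30 * q ^ 2 - 30 ^ 2 * q) ≤ E2 (-4) := by
      refine mul_le_E2 (mul_le_E2 (mul_le_E2 hl2 hcS' (by positivity) le_rfl) hd2'
        (by positivity) le_rfl) hff (by positivity) ?_
      linarith
    exact h5.trans h16
  · -- hC3
    rw [div_mul_cancel₀ _ (by positivity)]
    norm_num
  · -- hT3
    have hl3 : 2 / fb⁻¹ ^ (32 * h) ≤ E2 (1 + 8 / 25 * D) := by
      have h1 := fb_inv_pow_ge (32 * h)
      have h3 := inv_anti₀ (E2_pos _) h1
      rw [E2_inv, neg_neg] at h3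
      rw [div_eq_mul_inv]
      refine mul_le_E2 (x := 1) (num_le_E2 1 (by norm_num) (by norm_num)) h3 (by positivity) ?_
      push_cast
      linarith
    have hcI' : (cI : ℝ) ≤ E2 (27 + 2 * (n - D)) := by
      refine hcI.trans ?_
      exact mul_le_E2 (x := 27) (num_le_E2 27 (by norm_num) (by norm_num)) hY4 (by positivity)
        le_rfl
    have hr4 : (r : ℝ) ^ 4 ≤ E2 (4 * (D / 1000)) := by
      refine pow_le_E2 (x := D / 1000) (by positivity) ?_ (by norm_num)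
      exact hr.trans (hpolyk 30 _ le_rfl (by norm_num) (by norm_num))
    have hff : fb⁻¹ ^ (4 * q ^ 2 - 16 * q) ≤ E2 (-(4 / 7 * (4 * n - 16 * u))) := by
      refine (fb_inv_pow_le _).trans (le_of_eq ?_)
      congr 3
      rw [Nat.cast_sub (by nlinarith)]
      push_cast
      rw [hn]
    have h5 : 2 / fb⁻¹ ^ (32 * h) * (cI : ℝ) * (r : ℝ) ^ 4
        * fb⁻¹ ^ (4 * q ^ 2 - 16 * q) ≤ E2 (-4) := by
      refine mul_le_E2 (mul_le_E2 (mul_le_E2 hl3 hcI' (by positivity) le_rfl) hr4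
        (by positivity) le_rfl) hff (by positivity) ?_
      linarith
    exact h5.trans h16
  · -- hzone
    have h1 : 3 * ((r : ℝ) * fb⁻¹ ^ h) ≤ (3 * 10 ^ 8 * u ^ 30) * fb⁻¹ ^ h := by
      have h2 : (0 : ℝ) ≤ fb⁻¹ ^ h := by positivity
      calc 3 * ((r : ℝ) * fb⁻¹ ^ h) = (3 * (r : ℝ)) * fb⁻¹ ^ h := by ring
        _ ≤ (3 * (10 ^ 8 * u ^ 30)) * fb⁻¹ ^ h :=
            mul_le_mul_of_nonneg_right (mul_le_mul_of_nonneg_left hr (by norm_num)) h2
        _ = _ := by ring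
    refine h1.trans ?_
    have h2 : E2 (-1) = 1 / 2 := by
      have h6 : (-1 : ℝ) = -((1 : ℕ) : ℝ) := by norm_num
      rw [h6, ← E2_inv, E2_nat]; norm_num
    rw [← h2]
    refine mul_le_E2 (hpolyk 30 _ le_rfl (by norm_num) (by norm_num))
      (fb_inv_pow_le h) (by positivity) ?_
    linarith
  · exact hmq
  · -- hqh
    have : q < 5 * κ * q := by nlinarith
    omega
  · exact h8
  · -- hPB
    have h1 : β⁻¹ = E2 (9 / 10 * D) := by rw [hβ, E2_inv, neg_neg]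
    have h2 : bb q ^ (2 * (5 * κ * q)) ≤ E2 (10 * v) := by
      refine (bb_pow_le _ hq2).trans (le_of_eq ?_)
      congr 1
      push_cast
      rw [hv, hu]; ring
    have h3 : ((e : ℝ) + ((q ^ 2 : ℕ) : ℝ)) ≤ E2 (D / 1000) := by
      refine le_trans ?_ (hpolyk 20 (10 ^ 8 + 1) (by norm_num) (by norm_num) (by norm_num))
      have h4 : n ≤ u ^ 20 := pow_le_pow_right₀ (by linarith) (by norm_num)
      rw [hqq]
      linarith
    have h6 : E2 (-(D / 1000)) ≤ 1 / n := by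
      rw [← E2_inv, one_div]
      apply inv_anti₀ hn0
      have := hpolyk 2 1 (by norm_num) (by norm_num) (by norm_num)
      rw [one_mul] at this
      exact this
    refine le_trans ?_ h6
    refine mul_le_E2 (mul_le_E2 (mul_le_E2 h1.le h2 (by positivity) le_rfl) h3
      (by positivity) le_rfl) hK.le hKpos.le ?_
    linarith

end Pool.Agent.Helper83.L4
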