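import Mathlib
import Pool.Agent.Helper83.L4.Round1

set_option autoImplicit false
set_option linter.unusedSectionVars false
set_option linter.unusedVariables false
set_option linter.unusedSimpArgs false

namespace Pool.Agent.Helper83.L4

open Finset Pool.Agent.Helper32.Lat

namespace Sys

variable {V I : Type} [DecidableEq V] [DecidableEq I] [Fintype I] (s : Sys V I)

/-- Maker's move -/
theorem stepA {X Y Δ : Finset V} {Pc : Finset I} {P : I → Finset V}
    (h : s.InvA X Y Pc P) (hΔ : Δ.card ≤ 2) (hΔS : Δ ⊆ s.S \ (X ∪ Y)) :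
    s.InvB (X ∪ Δ) Y Δ Pc P := by
  set Z := Pc.biUnion P with hZ
  have hΔX : Disjoint Δ (X ∪ Y) := by
    rw [Finset.disjoint_left]; intro a ha
    exact (Finset.mem_sdiff.mp (hΔS ha)).2
  have eM : (X ∪ Δ) \ Z = (X \ Z) ∪ (Δ \ Z) := Finset.union_sdiff_distrib X Δ Z
  have eF : (s.S \ ((X ∪ Δ) ∪ Y)) \ Z = ((s.S \ (X ∪ Y)) \ Z) \ (Δ \ Z) := by
    ext a; simp only [Finset.mem_sdiff, Finset.mem_union]; tauto
  have hsubF : (s.S \ ((X ∪ Δ) ∪ Y)) \ Z ⊆ (s.S \ (X ∪ Y)) \ Z := by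
    rw [eF]; exact Finset.sdiff_subset
  refine ⟨⟨h.c1, h.c2, ?_, h.c4, h.c8⟩, Finset.subset_union_right, ?_, ?_, ?_⟩
  · intro B hB
    obtain ⟨h1, h2, h3⟩ := h.c3 B hB
    refine ⟨?_, h2, Disjoint.mono_right hsubF h3⟩
    refine (Finset.card_le_card ?_).trans h1
    rw [← hZ, eM]
    exact Finset.sdiff_subset_sdiff (Finset.Subset.refl _) Finset.subset_union_left
  · intro B hB
    exact s.zoneMove (P B) X Y Δ (h.a5 B hB) hΔ hΔX
  · rw [← hZ, eM, eF]
    have hcd : (Δ \ Z).card ≤ 2 := (Finset.card_le_card Finset.sdiff_subset).trans hΔ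
    refine s.bigMove (X \ Z) (Y \ Z) ((s.S \ (X ∪ Y)) \ Z) (Δ \ Z) _ _ h.a6 ?_ hcd ?_ ?_ ?_ ?_
    · exact Finset.sdiff_subset_sdiff hΔS (Finset.Subset.refl _)
    · intro a ha; exact (Finset.mem_sdiff.mp (Finset.mem_sdiff.mp ha).1).1
    · rw [Finset.disjoint_left]
      intro a ha hb
      simp only [Finset.mem_sdiff, Finset.mem_union] at ha hb
      tauto
    · intro B
      unfold Lk
      split_ifs
      · exact Finset.Subset.refl _
      · exact Finset.inter_subset_inter_left Finset.sdiff_subset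
    · rintro B ⟨x, hxA, hxF⟩
      have hB : B ∉ Pc := by
        intro hB
        exact Finset.disjoint_left.mp (h.c3 B hB).2.2 (s.A_sub_E B hxA) hxF
      unfold Lk
      rw [if_neg hB]
      refine ⟨Finset.inter_subset_inter_left Finset.sdiff_subset, ?_⟩
      rw [Finset.disjoint_left]
      intro a ha hb
      exact (Finset.mem_sdiff.mp (Finset.mem_inter.mp ha).2).2 hb
  · intro C hC
    obtain ⟨h1, h2⟩ := h.a7 C hC
    refine ⟨?_, h2⟩
    rw [← hZ] at h1 ⊢
    rw [eM]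
    have h3 : s.A C \ (X \ Z) ⊆ (s.A C \ ((X \ Z) ∪ (Δ \ Z))) ∪ Δ := by
      intro a; simp only [Finset.mem_sdiff, Finset.mem_union]; tauto
    have h4 := Finset.card_le_card h3
    have h5 := Finset.card_union_le (s.A C \ ((X \ Z) ∪ (Δ \ Z))) Δ
    omega

/-- processing a dangerous lattice -/
theorem process {X Y Δ : Finset V} {Pc : Finset I} {P : I → Finset V}
    (h : s.InvB X Y Δ Pc P) (hΔ : Δ.card ≤ 2) (hXY : Disjoint X Y) (C : I) (hC : s.unh Y Pc P C)
    (hd : (s.A C \ (X \ Pc.biUnion P)).card ≤ 8 * s.h) :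
    ∃ P' : I → Finset V, s.InvB X Y Δ (insert C Pc) P' ∧ C ∉ Pc ∧
      (∀ D, s.unh Y (insert C Pc) P' D → s.unh Y Pc P D ∧ D ≠ C) ∧
      Pc.biUnion P ⊆ (insert C Pc).biUnion P' := by
  set Z := Pc.biUnion P with hZ
  set F := (s.S \ (X ∪ Y)) \ Z with hF
  set PC := s.E C ∩ F with hPC
  have hCPc : C ∉ Pc := fun hm => by
    have h1 := hC.2 C hm
    have h2 := h.c8 C hm
    omega
  set P' : I → Finset V := Function.update P C PC with hP'
  have hP'C : P' C = PC := Function.update_self _ _ _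
  have hP'B : ∀ B ∈ Pc, P' B = P B := fun B hB =>
    Function.update_of_ne (fun e => hCPc (by rw [← e]; exact hB)) _ _
  have hbU : Pc.biUnion P' = Z := Finset.biUnion_congr rfl hP'B
  have hZ' : (insert C Pc).biUnion P' = PC ∪ Z := by
    rw [Finset.biUnion_insert, hP'C, hbU]
  have hPCF : PC ⊆ F := Finset.inter_subset_right
  have hFX : Disjoint F X := by
    rw [Finset.disjoint_left]; intro a ha hb
    simp only [hF, Finset.mem_sdiff, Finset.mem_union] at ha; tauto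
  have hFY : Disjoint F Y := by
    rw [Finset.disjoint_left]; intro a ha hb
    simp only [hF, Finset.mem_sdiff, Finset.mem_union] at ha; tauto
  have hFZ : Disjoint F Z := by
    rw [Finset.disjoint_left]; intro a ha hb
    exact (Finset.mem_sdiff.mp ha).2 hb
  have eX : X \ (PC ∪ Z) = X \ Z := by
    ext a; simp only [Finset.mem_sdiff, Finset.mem_union]
    constructor
    · tauto
    · rintro ⟨h1, h2⟩
      refine ⟨h1, ?_⟩
      rintro (h3 | h3)
      · exact Finset.disjoint_left.mp hFX (hPCF h3) h1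
      · exact h2 h3
  have eY : Y \ (PC ∪ Z) = Y \ Z := by
    ext a; simp only [Finset.mem_sdiff, Finset.mem_union]
    constructor
    · tauto
    · rintro ⟨h1, h2⟩
      refine ⟨h1, ?_⟩
      rintro (h3 | h3)
      · exact Finset.disjoint_left.mp hFY (hPCF h3) h1
      · exact h2 h3
  have hΔF : Disjoint Δ F := by
    rw [Finset.disjoint_left]; intro a ha hb
    exact Finset.disjoint_left.mp hFX hb (h.b0 ha)
  have eΔ : Δ \ (PC ∪ Z) = Δ \ Z := by
    ext a; simp only [Finset.mem_sdiff, Finset.mem_union]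
    constructor
    · tauto
    · rintro ⟨h1, h2⟩
      refine ⟨h1, ?_⟩
      rintro (h3 | h3)
      · exact Finset.disjoint_left.mp hΔF h1 (hPCF h3)
      · exact h2 h3
  have eF : (s.S \ (X ∪ Y)) \ (PC ∪ Z) = F \ s.E C := by
    ext a
    simp only [hPC, hF, Finset.mem_sdiff, Finset.mem_union, Finset.mem_inter]
    tauto
  have hmf := s.many_free h hΔ
  have hunh : ∀ D, s.unh Y (insert C Pc) P' D → s.unh Y Pc P D ∧ (s.A D ∩ PC).card < s.h := by
    rintro D ⟨h1, h2⟩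
    rw [hZ', eY] at h1
    refine ⟨⟨h1, fun B hB => ?_⟩, ?_⟩
    · have := h2 B (Finset.mem_insert_of_mem hB)
      rwa [hP'B B hB] at this
    · have := h2 C (Finset.mem_insert_self _ _)
      rwa [hP'C] at this
  have hinE : ∀ D, s.unh Y Pc P D → s.A D ⊆ s.E C → s.h ≤ (s.A D ∩ PC).card := by
    intro D hD hDE
    have h1 := hmf D hD
    have h2 : s.A D ∩ ((s.S \ (X ∪ Y)) \ Pc.biUnion P) ⊆ s.A D ∩ PC := by
      intro a ha
      rw [Finset.mem_inter] at ha ⊢
      exact ⟨ha.1, Finset.mem_inter.mpr ⟨hDE ha.1, ha.2⟩⟩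
    exact h1.trans (Finset.card_le_card h2)
  have hC8 : s.h ≤ (s.A C ∩ PC).card := hinE C hC (s.A_sub_E C)
  refine ⟨P', ?_, hCPc, ?_, ?_⟩
  rotate_left
  · intro D hD
    have h1 := hunh D hD
    refine ⟨h1.1, ?_⟩
    rintro rfl
    have := h1.2
    omega
  · rw [hZ']; exact Finset.subset_union_right
  refine ⟨⟨?_, ?_, ?_, ?_, ?_⟩, h.b0, ?_, ?_, ?_⟩
  · -- c1
    intro B hB
    rcases Finset.mem_insert.mp hB with rfl | hB
    · rw [hP'C]; exact Finset.inter_subset_left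
    · rw [hP'B B hB]; exact h.c1 B hB
  · -- c2
    have hd1 : ∀ B ∈ Pc, Disjoint PC (P B) := fun B hB =>
      Disjoint.mono hPCF (Finset.subset_biUnion_of_mem P hB) hFZ
    intro B hB D hD hne
    rcases Finset.mem_insert.mp hB with e1 | hB1 <;> rcases Finset.mem_insert.mp hD with e2 | hD1
    · exact absurd (e1.trans e2.symm) hne
    · rw [e1, hP'C, hP'B D hD1]; exact hd1 D hD1
    · rw [e2, hP'C, hP'B B hB1]; exact (hd1 B hB1).symm
    · rw [hP'B B hB1, hP'B D hD1]; exact h.c2 B hB1 D hD1 hne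
  · -- c3
    intro B hB
    rw [hZ', eX, eY, eF]
    rcases Finset.mem_insert.mp hB with rfl | hB
    · refine ⟨hd, hC.1, ?_⟩
      exact Finset.disjoint_sdiff
    · obtain ⟨h1, h2, h3⟩ := h.c3 B hB
      exact ⟨h1, h2, Disjoint.mono_right Finset.sdiff_subset h3⟩
  · -- c4
    intro B hB D hD hne
    rcases Finset.mem_insert.mp hB with e1 | hB1 <;> rcases Finset.mem_insert.mp hD with e2 | hD1
    · exact absurd (e1.trans e2.symm) hne
    · rw [e1]; exact (h.b7 _ hC).2 D hD1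
    · rw [e2, Finset.inter_comm]; exact (h.b7 _ hC).2 B hB1
    · exact h.c4 B hB1 D hD1 hne
  · -- c8
    intro B hB
    rcases Finset.mem_insert.mp hB with rfl | hB
    · rw [hP'C]; exact hC8
    · rw [hP'B B hB]; exact h.c8 B hB
  · -- b5
    intro B hB
    rcases Finset.mem_insert.mp hB with rfl | hB
    · rw [hP'C]
      apply s.zoneNew PC X Y B Finset.inter_subset_left (Disjoint.mono_left hPCF hFX)
      · exact card_cast_le_two ((Finset.card_le_card Finset.inter_subset_left).trans hΔ)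
      · have : (0 : ℝ) ≤ ((Δ ∩ PC).card : ℝ) := Nat.cast_nonneg _
        linarith
    · rw [hP'B B hB]; exact h.b5 B hB
  · -- b6
    rw [hZ', eX, eY, eF, eΔ]
    obtain ⟨D, hD0, hD, hT⟩ := h.b6
    have hL : ∀ B, s.Lk (F \ s.E C) (insert C Pc) P' B ⊆ s.Lk F Pc P B := by
      intro B
      unfold Lk
      by_cases hBC : B = C
      · subst hBC
        rw [if_pos (Finset.mem_insert_self _ _), if_neg hCPc, hP'C]
      · by_cases hB : B ∈ Pc
        · rw [if_pos (Finset.mem_insert_of_mem hB), if_pos hB, hP'B B hB]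
        · rw [if_neg hB, if_neg (by simp [hBC, hB])]
          exact Finset.inter_subset_inter_left Finset.sdiff_subset
    have hw := s.wB_mono (X \ Z) (Y \ Z) hL
    refine ⟨D, hD0, ?_, ?_⟩
    · intro u hu
      exact (Val_mono hw u).trans (hD u (Finset.sdiff_subset hu))
    · have := Tot_mono hw
      linarith
  · -- b7
    intro D hD
    have h1 := hunh D hD
    have h2 := h.b7 D h1.1
    rw [hZ', eX]
    refine ⟨h2.1, ?_⟩
    intro B hB
    rcases Finset.mem_insert.mp hB with rfl | hB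
    · by_contra hcon
      push Not at hcon
      have h3 := hinE D h1.1 (s.hAE D B hcon)
      omega
    · exact h2.2 B hB

open Classical in
/-- the processing loop -/
theorem loop {X Y Δ : Finset V} (hΔ : Δ.card ≤ 2) (hXY : Disjoint X Y) :
    ∀ (k : ℕ) (Pc : Finset I) (P : I → Finset V), s.InvB X Y Δ Pc P →
      (univ.filter fun C => s.unh Y Pc P C ∧
        (s.A C \ (X \ Pc.biUnion P)).card ≤ 8 * s.h).card ≤ k →
      ∃ (Pc' : Finset I) (P' : I → Finset V), s.InvB X Y Δ Pc' P' ∧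
        ∀ C, s.unh Y Pc' P' C → 8 * s.h < (s.A C \ (X \ Pc'.biUnion P')).card := by
  intro k
  induction k with
  | zero =>
    intro Pc P h hk
    refine ⟨Pc, P, h, fun C hC => ?_⟩
    by_contra hcon
    push Not at hcon
    have : C ∈ (univ.filter fun C => s.unh Y Pc P C ∧
        (s.A C \ (X \ Pc.biUnion P)).card ≤ 8 * s.h) := by
      simp [hC, hcon]
    have := Finset.card_pos.mpr ⟨C, this⟩
    omega
  | succ k ih =>
    intro Pc P h hk
    by_cases hex : ∃ C, s.unh Y Pc P C ∧ (s.A C \ (X \ Pc.biUnion P)).card ≤ 8 * s.h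
    swap
    · push Not at hex
      exact ⟨Pc, P, h, hex⟩
    obtain ⟨C, hC, hd⟩ := hex
    obtain ⟨P', h', hCPc, hun, hZZ⟩ := s.process h hΔ hXY C hC hd
    apply ih (insert C Pc) P' h'
    have hlt : (univ.filter fun D => s.unh Y (insert C Pc) P' D ∧
        (s.A D \ (X \ (insert C Pc).biUnion P')).card ≤ 8 * s.h).card <
        (univ.filter fun C => s.unh Y Pc P C ∧
        (s.A C \ (X \ Pc.biUnion P)).card ≤ 8 * s.h).card := by
      apply Finset.card_lt_card
      rw [Finset.ssubset_iff_of_subset]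
      · refine ⟨C, by simp [hC, hd], ?_⟩
        simp only [Finset.mem_filter, Finset.mem_univ, true_and, not_and]
        intro hCu
        exact absurd rfl (hun C hCu).2
      · intro D hD
        simp only [Finset.mem_filter, Finset.mem_univ, true_and] at hD ⊢
        refine ⟨(hun D hD.1).1, ?_⟩
        refine (Finset.card_le_card ?_).trans hD.2
        exact Finset.sdiff_subset_sdiff (Finset.Subset.refl _)
          (Finset.sdiff_subset_sdiff (Finset.Subset.refl _) hZZ)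
    omega

/-- Maker has not captured a lattice -/
theorem nocapture {X Y Δ : Finset V} {Pc : Finset I} {P : I → Finset V}
    (h : s.InvB X Y Δ Pc P) (hΔ : Δ.card ≤ 2) (hXY : Disjoint X Y) (C : I) : ¬ s.A C ⊆ X := by
  intro hCX
  have hal : Disjoint (s.A C) (Y \ Pc.biUnion P) :=
    Disjoint.mono hCX Finset.sdiff_subset hXY
  by_cases hun : s.unh Y Pc P C
  · have h1 := s.few_small h hΔ C hun
    have h2 := (h.b7 C hun).1
    have h3 : s.A C \ (X \ Pc.biUnion P) ⊆ s.A C ∩ Pc.biUnion P := by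
      intro a ha
      simp only [Finset.mem_sdiff, Finset.mem_inter, not_and, not_not] at ha ⊢
      exact ⟨ha.1, ha.2 (hCX ha.1)⟩
    have h4 := Finset.card_le_card h3
    have h5 := s.hqh
    omega
  · have hex : ∃ B ∈ Pc, s.h ≤ (s.A C ∩ P B).card := by
      by_contra hcon
      push Not at hcon
      exact hun ⟨hal, hcon⟩
    obtain ⟨B, hB, hBC⟩ := hex
    obtain ⟨D, hD0, -, hT⟩ := h.b5 B hB
    have hc := card_cast_le_two ((Finset.card_le_card (Finset.inter_subset_left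
      (s₁ := Δ) (s₂ := P B))).trans hΔ)
    have h1 : s.wZ (P B) X Y C ≤ Tot (s.wZ (P B) X Y) :=
      Finset.single_le_sum (f := s.wZ (P B) X Y) (fun c _ => s.wZ_nonneg _ _ _ _)
        (Finset.mem_univ _)
    have h2 : s.wZ (P B) X Y C = 1 := by
      unfold wZ wS
      have hd : Disjoint (s.A C ∩ P B) Y :=
        Disjoint.mono_left Finset.inter_subset_left (Disjoint.mono_left hCX hXY)
      rw [if_pos hd]
      have he : (s.A C ∩ P B) \ X = ∅ := by
        rw [Finset.sdiff_eq_empty_iff_subset]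
        exact Finset.inter_subset_left.trans hCX
      simp only [he, hBC, if_true, Finset.card_empty, pow_zero, mul_one]
    have h3 : 0 ≤ (2 - ((Δ ∩ P B).card : ℝ)) * D := mul_nonneg hc hD0
    linarith

/-- Breaker's reply -/
theorem stepB {X Y Δ : Finset V} {Pc : Finset I} {P : I → Finset V}
    (h : s.InvB X Y Δ Pc P) (hΔ : Δ.card ≤ 2) (hXY : Disjoint X Y)
    (hnp : ∀ C, s.unh Y Pc P C → 8 * s.h < (s.A C \ (X \ Pc.biUnion P)).card) :
    ∃ R : Finset V, R ⊆ s.S \ (X ∪ Y) ∧ R.card ≤ 2 ∧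
      ∀ R' : Finset V, R ⊆ R' → R' ⊆ s.S \ (X ∪ Y) → s.InvA X (Y ∪ R') Pc P := by
  set Z := Pc.biUnion P with hZ
  set F := (s.S \ (X ∪ Y)) \ Z with hF
  obtain ⟨D, hD0, hD, hT⟩ := h.b6
  obtain ⟨R0, hR0F, hR0c, D', hD'0, hD', hT'⟩ := reply s.ptsB
    (s.wB (X \ Z) (Y \ Z) (s.Lk F Pc P)) (s.wB_nonneg _ _ _) F (Δ \ Z).card
    ((Finset.card_le_card Finset.sdiff_subset).trans hΔ) D 1 hD hD0 hT
  have hzone : ∀ B, ∃ RB : Finset V, B ∈ Pc → (RB ⊆ P B \ (X ∪ Y) ∧ RB.card ≤ (Δ ∩ P B).card ∧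
      ∃ D', 0 ≤ D' ∧ (∀ u ∈ (P B \ (X ∪ Y)) \ RB,
        Val (s.ptsZ (P B)) (kill (s.ptsZ (P B)) (s.wZ (P B) X Y) RB) u ≤ D') ∧
        Tot (kill (s.ptsZ (P B)) (s.wZ (P B) X Y) RB) + 2 * D' ≤ 1 / 2) := by
    intro B
    by_cases hB : B ∈ Pc
    · obtain ⟨D, hD0, hD, hT⟩ := h.b5 B hB
      obtain ⟨R, h1, h2, h3⟩ := reply (s.ptsZ (P B)) (s.wZ (P B) X Y) (s.wZ_nonneg _ _ _)
        (P B \ (X ∪ Y)) (Δ ∩ P B).card
        ((Finset.card_le_card Finset.inter_subset_left).trans hΔ) D (1 / 2) hD hD0 hT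
      exact ⟨R, fun _ => ⟨h1, h2, h3⟩⟩
    · exact ⟨∅, fun hB' => absurd hB' hB⟩
  choose RB hRB using hzone
  have hPS : ∀ B ∈ Pc, P B ⊆ s.S := fun B hB => (h.c1 B hB).trans (s.hE B)
  refine ⟨R0 ∪ Pc.biUnion RB, ?_, ?_, ?_⟩
  · intro a ha
    rcases Finset.mem_union.mp ha with h1 | h1
    · exact (Finset.mem_sdiff.mp (hR0F h1)).1
    · obtain ⟨B, hB, hBa⟩ := Finset.mem_biUnion.mp h1
      have h2 := Finset.mem_sdiff.mp ((hRB B hB).1 hBa)
      exact Finset.mem_sdiff.mpr ⟨hPS B hB h2.1, h2.2⟩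
  · have h1 : (Pc.biUnion RB).card ≤ (Δ ∩ Z).card := by
      refine Finset.card_biUnion_le.trans ?_
      have h2 : ∑ B ∈ Pc, (RB B).card ≤ ∑ B ∈ Pc, (Δ ∩ P B).card :=
        Finset.sum_le_sum fun B hB => (hRB B hB).2.1
      refine h2.trans (le_of_eq ?_)
      rw [hZ, Finset.inter_biUnion, Finset.card_biUnion]
      intro B hB C hC hne
      exact Disjoint.mono Finset.inter_subset_right Finset.inter_subset_right
        (h.c2 B hB C hC hne)
    have h2 := Finset.card_union_le R0 (Pc.biUnion RB)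
    have h3 := Finset.card_sdiff_add_card_inter Δ Z
    omega
  · intro R' hRR hR'S
    have hR0R : R0 ⊆ R' \ Z := by
      intro a ha
      refine Finset.mem_sdiff.mpr ⟨hRR (Finset.mem_union_left _ ha), ?_⟩
      exact (Finset.mem_sdiff.mp (hR0F ha)).2
    have eY : (Y ∪ R') \ Z = (Y \ Z) ∪ (R' \ Z) := Finset.union_sdiff_distrib Y R' Z
    have eF : (s.S \ (X ∪ (Y ∪ R'))) \ Z = F \ (R' \ Z) := by
      ext a; simp only [hF, Finset.mem_sdiff, Finset.mem_union]; tauto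
    have hR'F : R' \ Z ⊆ F := Finset.sdiff_subset_sdiff hR'S (Finset.Subset.refl _)
    refine ⟨⟨h.c1, h.c2, ?_, h.c4, h.c8⟩, ?_, ?_, ?_⟩
    · intro B hB
      obtain ⟨h1, h2, h3⟩ := h.c3 B hB
      rw [← hZ, eY, eF]
      refine ⟨h1, ?_, Disjoint.mono_right Finset.sdiff_subset h3⟩
      rw [Finset.disjoint_union_right]
      exact ⟨h2, Disjoint.mono (s.A_sub_E B) hR'F h3⟩
    · intro B hB
      obtain ⟨h1, h2, D1, hD10, hD1, hT1⟩ := hRB B hB
      have hw : ∀ c, s.wZ (P B) X (Y ∪ R') c ≤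
          kill (s.ptsZ (P B)) (s.wZ (P B) X Y) (RB B) c := by
        intro c
        have e1 : s.wZ (P B) X (Y ∪ R') c = kill (s.ptsZ (P B)) (s.wZ (P B) X Y) R' c :=
          wS_kill s.f_pos (fun D => by split_ifs <;> norm_num) X Y R' c
        rw [e1]
        apply kill_anti (s.wZ_nonneg _ _ _)
        exact (Finset.subset_biUnion_of_mem RB hB).trans
          (Finset.subset_union_right.trans hRR)
      refine ⟨D1, hD10, ?_, ?_⟩
      · intro u hu
        refine (Val_mono hw u).trans (hD1 u ?_)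
        simp only [Finset.mem_sdiff, Finset.mem_union, not_or] at hu ⊢
        refine ⟨⟨hu.1, hu.2.1, hu.2.2.1⟩, fun hu' => hu.2.2.2 ?_⟩
        exact hRR (Finset.mem_union_right _ (Finset.mem_biUnion.mpr ⟨B, hB, hu'⟩))
      · have := Tot_mono hw
        linarith
    · rw [← hZ, eY, eF]
      have hL : ∀ B, s.Lk (F \ (R' \ Z)) Pc P B ⊆ s.Lk F Pc P B := by
        intro B
        unfold Lk
        split_ifs
        · exact Finset.Subset.refl _
        · exact Finset.inter_subset_inter_left Finset.sdiff_subset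
      have hw : ∀ c, s.wB (X \ Z) ((Y \ Z) ∪ (R' \ Z)) (s.Lk (F \ (R' \ Z)) Pc P) c ≤
          kill s.ptsB (s.wB (X \ Z) (Y \ Z) (s.Lk F Pc P)) R0 c := fun c =>
        (s.wB_mono _ _ hL c).trans ((s.wB_kill _ _ _ _ c).trans
          (kill_anti (s.wB_nonneg _ _ _) hR0R c))
      refine ⟨D', hD'0, ?_, ?_⟩
      · intro u hu
        refine (Val_mono hw u).trans (hD' u ?_)
        rw [Finset.mem_sdiff] at hu ⊢
        exact ⟨hu.1, fun h1 => hu.2 (hR0R h1)⟩
      · have := Tot_mono hw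
        linarith
    · intro C hC
      have hC' : s.unh Y Pc P C := by
        refine ⟨Disjoint.mono_right ?_ hC.1, hC.2⟩
        rw [← hZ, eY]; exact Finset.subset_union_left
      exact ⟨hnp C hC', (h.b7 C hC').2⟩

theorem invA_init : s.InvA ∅ ∅ ∅ (fun _ => ∅) := by
  have hF : ((s.S \ (∅ ∪ ∅)) \ (∅ : Finset I).biUnion (fun _ => (∅ : Finset V))) = s.S := by simp
  refine ⟨⟨by simp, by simp, by simp, by simp, by simp⟩, by simp, ?_, ?_⟩
  · rw [hF]
    simp only [Finset.biUnion_empty, Finset.sdiff_empty]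
    have h1 := s.wT_init (s.Lk s.S ∅ fun _ => ∅) (fun B => by
      unfold Lk; rw [if_neg (by simp)]; exact Finset.inter_subset_left)
    have h2 := s.wJ_init
    have h3 : Tot (s.wB ∅ ∅ (s.Lk s.S ∅ fun _ => ∅)) ≤ 1 / 3 := by
      rw [s.Tot_wB]; linarith
    exact ⟨Tot (s.wB ∅ ∅ (s.Lk s.S ∅ fun _ => ∅)), Tot_nonneg (s.wB_nonneg _ _ _),
      fun u _ => Val_le_Tot (s.wB_nonneg _ _ _) u, by linarith⟩
  · intro C _
    simp only [Finset.biUnion_empty, Finset.sdiff_empty, Finset.notMem_empty, false_imp_iff,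
      implies_true, and_true]
    rw [s.hn]
    have h1 := s.h8
    have h2 := s.hr0n
    have h3 := s.hqh
    have h4 := s.n_pos
    by_contra hcon
    push Not at hcon
    have e1 : s.m * s.q = 0 := by omega
    have e2 : s.n = s.r0 := by omega
    have e3 : s.r0 - 8 * s.h = 0 := by omega
    have hC1 := s.hC1
    have hβ1 := s.hβ1
    rw [e3, pow_zero, mul_one] at hC1
    rw [e1, Nat.sub_zero, e2] at hβ1
    obtain ⟨z, hz⟩ : (s.A C).Nonempty := by
      rw [← Finset.card_pos, s.hn]; exact h4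
    have hd1 : 1 ≤ s.d1 := by
      refine le_trans ?_ (s.hd1 z)
      exact Finset.card_pos.mpr ⟨C, by simp [s.A_sub_E C hz]⟩
    have hr1 : (1 : ℝ) ≤ (s.r0 : ℝ) := by exact_mod_cast (by omega : 1 ≤ s.r0)
    have hd1' : (1 : ℝ) ≤ (s.d1 : ℝ) := by exact_mod_cast hd1
    have hp : 0 < s.b⁻¹ ^ s.r0 := pow_pos s.binv_pos _
    have hle : s.b⁻¹ ^ s.r0 ≤ s.β := by
      refine le_trans ?_ hβ1
      have : (1 : ℝ) ≤ (s.r0 : ℝ) * (s.d1 : ℝ) := by nlinarith
      nlinarith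
    have hle2 : (s.b⁻¹ ^ s.r0) ^ s.m ≤ s.β ^ s.m := pow_le_pow_left₀ hp.le hle _
    have hcI : (1 : ℝ) ≤ (s.cI : ℝ) := by
      have : 1 ≤ Fintype.card I := Fintype.card_pos_iff.mpr ⟨C⟩
      exact_mod_cast this.trans s.hcI
    have hT1 := s.hT1
    have hl1 := s.hl1
    have hβm : 0 < s.β ^ s.m := pow_pos s.hβ _
    have h5 : 1 < s.l1 * s.β ^ s.m := lt_of_lt_of_le hC1 (mul_le_mul_of_nonneg_left hle2 hl1.le)
    have hm1 : (1 : ℝ) ≤ (s.m : ℝ) + 1 := by
      have : (0 : ℝ) ≤ (s.m : ℝ) := Nat.cast_nonneg _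
      linarith
    have h6 : s.l1 * s.β ^ s.m ≤ s.l1 * s.β ^ s.m * ((s.m : ℝ) + 1) * (s.cI : ℝ) := by
      have h7 : 0 < s.l1 * s.β ^ s.m := by positivity
      calc s.l1 * s.β ^ s.m = s.l1 * s.β ^ s.m * 1 * 1 := by ring
        _ ≤ s.l1 * s.β ^ s.m * ((s.m : ℝ) + 1) * (s.cI : ℝ) := by
          apply mul_le_mul _ hcI zero_le_one (by positivity)
          exact mul_le_mul_of_nonneg_left hm1 h7.le
    linarith

theorem exists_inv :
    ∃ Inv : Finset V → Finset V → Prop, Inv ∅ ∅ ∧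
      ∀ X Y Δ : Finset V, Inv X Y → X ⊆ s.S → Y ⊆ s.S → Disjoint X Y → Δ ⊆ s.S \ (X ∪ Y) →
        Δ.card ≤ 2 →
        (∀ a, ¬ s.A a ⊆ X ∪ Δ) ∧ ∃ R : Finset V, R ⊆ s.S \ (X ∪ Δ ∪ Y) ∧ R.card ≤ 2 ∧
          ∀ R' : Finset V, R ⊆ R' → R' ⊆ s.S \ (X ∪ Δ ∪ Y) → Inv (X ∪ Δ) (Y ∪ R') := by
  refine ⟨fun X Y => ∃ Pc P, s.InvA X Y Pc P, ⟨∅, fun _ => ∅, s.invA_init⟩, ?_⟩
  rintro X Y Δ ⟨Pc, P, h⟩ hXS hYS hXY hΔS hΔ
  have hXY' : Disjoint (X ∪ Δ) Y := by
    rw [Finset.disjoint_union_left]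
    refine ⟨hXY, ?_⟩
    rw [Finset.disjoint_left]; intro a ha hb
    exact (Finset.mem_sdiff.mp (hΔS ha)).2 (Finset.mem_union_right _ hb)
  have hB := s.stepA h hΔ hΔS
  obtain ⟨Pc', P', hB', hnp⟩ := s.loop hΔ hXY' _ Pc P hB le_rfl
  refine ⟨fun a => s.nocapture hB' hΔ hXY' a, ?_⟩
  obtain ⟨R, h1, h2, h3⟩ := s.stepB hB' hΔ hXY' hnp
  exact ⟨R, h1, h2, fun R' h4 h5 => ⟨Pc', P', h3 R' h4 h5⟩⟩

end Sys

end Pool.Agent.Helper83.L4
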