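import Mathlib
import Pool.Agent.Helper32.Lat.Strat
import Pool.Agent.Helper83.L4.Round
import Pool.Agent.Helper83.L4.ExSys
import Pool.Agent.Helper83.L4.ExSysP
import Pool.Agent.Helper83.L4.Numerics

set_option autoImplicit false

/-! Breaker's strategy for parallelogram lattices and for aligned rectangle lattices, with explicit
thresholds. -/

namespace Pool.Agent.Helper83.L4

open Finset

/-- the strategy from the invariant of a system -/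
theorem strat_of_sys {I : Type} [DecidableEq I] [Fintype I] (s : Sys (ℤ × ℤ) I)
    (Bad : Finset (ℤ × ℤ) → Prop)
    (hBad : ∀ X : Finset (ℤ × ℤ), X ⊆ s.S → Bad X → ∃ a, s.A a ⊆ X) :
    ∃ σ : Finset (ℤ × ℤ) → Finset (ℤ × ℤ) → Finset (ℤ × ℤ),
      (∀ X Y : Finset (ℤ × ℤ), X ⊆ s.S → Y ⊆ s.S → Disjoint X Y →
        σ X Y ⊆ s.S \ (X ∪ Y) ∧ (σ X Y).card = min 2 (s.S \ (X ∪ Y)).card) ∧
      ∀ M B : ℕ → Finset (ℤ × ℤ), M 0 = ∅ → B 0 = ∅ →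
        (∀ k : ℕ, M k ⊆ M (k + 1) ∧
          M (k + 1) \ M k ⊆ s.S \ (M k ∪ B k) ∧
          (M (k + 1) \ M k).card = min 2 (s.S \ (M k ∪ B k)).card ∧
          B (k + 1) = B k ∪ σ (M (k + 1)) (B k)) →
        ∀ k : ℕ, ¬ Bad (M k) := by
  obtain ⟨Inv, hI0, hI⟩ := s.exists_inv
  refine Pool.Agent.Helper32.Lat.strategy_of_inv s.S Bad Inv hI0 ?_
  intro X Y Δ hXY hX hY hXYd hΔ hΔc
  obtain ⟨h1, h2⟩ := hI X Y Δ hXY hX hY hXYd hΔ hΔc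
  refine ⟨?_, h2⟩
  intro hb
  have hXΔ : X ∪ Δ ⊆ s.S := Finset.union_subset hX (hΔ.trans Finset.sdiff_subset)
  obtain ⟨a, ha⟩ := hBad _ hXΔ hb
  exact h1 a ha

/-- the choice of the parameter κ -/
theorem choose_kappa (a : ℝ) (ha : 0 ≤ a) (ha2 : a ≤ 2) (L : ℝ) (hL : 0 ≤ L) (q : ℕ)
    (hq : a * L + 3000 * Real.sqrt L + 10 ^ 11 ≤ (q : ℝ)) :
    ∃ κ : ℕ, 200 ≤ κ ∧ 10 ^ 6 * κ ^ 2 ≤ q ∧
      (a * L) ^ 2 ≤ (1 - 1 / (κ : ℝ)) * (q : ℝ) ^ 2 := by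
  set s : ℝ := Real.sqrt L with hs
  have hs0 : 0 ≤ s := Real.sqrt_nonneg L
  have hsL : s ^ 2 = L := Real.sq_sqrt hL
  set t : ℝ := Real.sqrt (q : ℝ) with ht
  have ht0 : 0 ≤ t := Real.sqrt_nonneg _
  have htq : t ^ 2 = (q : ℝ) := Real.sq_sqrt (Nat.cast_nonneg q)
  have haL : 0 ≤ a * L := mul_nonneg ha hL
  have hq11 : (10 : ℝ) ^ 11 ≤ (q : ℝ) := by
    have : 0 ≤ 3000 * s := by positivity
    linarith
  have ht5 : (300000 : ℝ) ≤ t := by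
    by_contra hcon
    push Not at hcon
    have : t ^ 2 < 300000 ^ 2 := pow_lt_pow_left₀ hcon ht0 two_ne_zero
    rw [htq] at this
    norm_num at this hq11
    linarith
  refine ⟨Nat.sqrt (q / 10 ^ 6), ?_, ?_, ?_⟩
  · rw [Nat.le_sqrt]
    have h1 : 10 ^ 11 ≤ q := by exact_mod_cast hq11
    have h2 : 10 ^ 11 / 10 ^ 6 ≤ q / 10 ^ 6 := Nat.div_le_div_right h1
    norm_num at h2 ⊢
    omega
  · have h1 : Nat.sqrt (q / 10 ^ 6) ^ 2 ≤ q / 10 ^ 6 := Nat.sqrt_le' _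
    calc 10 ^ 6 * Nat.sqrt (q / 10 ^ 6) ^ 2 ≤ 10 ^ 6 * (q / 10 ^ 6) := Nat.mul_le_mul_left _ h1
      _ ≤ q := Nat.mul_div_le q (10 ^ 6)
  · set κ : ℕ := Nat.sqrt (q / 10 ^ 6) with hκ
    have hκ200 : 200 ≤ κ := by
      rw [hκ, Nat.le_sqrt]
      have h1 : 10 ^ 11 ≤ q := by exact_mod_cast hq11
      have h2 : 10 ^ 11 / 10 ^ 6 ≤ q / 10 ^ 6 := Nat.div_le_div_right h1
      norm_num at h2 ⊢
      omega
    have hκr : (200 : ℝ) ≤ κ := by exact_mod_cast hκ200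
    have hlt : q < 10 ^ 6 * (κ + 1) ^ 2 := by
      have h1 : q / 10 ^ 6 < (κ + 1) ^ 2 := Nat.lt_succ_sqrt' _
      have h2 : q < 10 ^ 6 * (q / 10 ^ 6 + 1) := Nat.lt_mul_div_succ q (by norm_num)
      calc q < 10 ^ 6 * (q / 10 ^ 6 + 1) := h2
        _ ≤ 10 ^ 6 * (κ + 1) ^ 2 := Nat.mul_le_mul_left _ h1
    have hltr : (q : ℝ) < 10 ^ 6 * ((κ : ℝ) + 1) ^ 2 := by exact_mod_cast hlt
    have ht1 : t < 1000 * ((κ : ℝ) + 1) := by
      refine lt_of_pow_lt_pow_left₀ 2 (by positivity) ?_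
      rw [htq]
      refine hltr.trans_le (le_of_eq ?_)
      ring
    have ht2 : t < 2000 * (κ : ℝ) := by linarith
    -- a L ≤ q - 2000 t
    have hmain : a * L ≤ t ^ 2 - 2000 * t := by
      by_contra hcon
      push Not at hcon
      have h1 : (t - 1000) ^ 2 < (14143 / 10000 * s + 1000) ^ 2 := by
        have h2 : a * L ≤ 2 * s ^ 2 := by
          rw [hsL]; exact mul_le_mul_of_nonneg_right ha2 hL
        nlinarith
      have h3 : t - 1000 < 14143 / 10000 * s + 1000 :=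
        lt_of_pow_lt_pow_left₀ 2 (by positivity) h1
      rw [← htq] at hq
      nlinarith
    have hq4 : (q : ℝ) ^ 2 = t ^ 4 := by rw [← htq]; ring
    have hstep1 : (a * L) ^ 2 ≤ (t ^ 2 - 2000 * t) ^ 2 := pow_le_pow_left₀ haL hmain 2
    have hstep2 : (t ^ 2 - 2000 * t) ^ 2 ≤ t ^ 4 - 2000 * t ^ 3 := by
      have h1 : 0 ≤ t ^ 2 * (2000 * t - 4 * 10 ^ 6) := by
        apply mul_nonneg (by positivity)
        norm_num
        linarith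
      nlinarith [h1]
    have hstep3 : t ^ 4 - 2000 * t ^ 3 ≤ (1 - 1 / (κ : ℝ)) * t ^ 4 := by
      have hκ0 : (0 : ℝ) < κ := by linarith
      have h1 : 1 / (κ : ℝ) * t ^ 4 ≤ 2000 * t ^ 3 := by
        rw [one_div, inv_mul_le_iff₀ hκ0]
        have h2 : t * t ^ 3 ≤ (2000 * (κ : ℝ)) * t ^ 3 :=
          mul_le_mul_of_nonneg_right ht2.le (by positivity)
        calc t ^ 4 = t * t ^ 3 := by ring
          _ ≤ (2000 * (κ : ℝ)) * t ^ 3 := h2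
          _ = κ * (2000 * t ^ 3) := by ring
      linarith
    rw [hq4]
    exact hstep1.trans (hstep2.trans hstep3)

/-- powers of N -/
theorem N_pow_eq (N : ℕ) (hN : 1 ≤ N) :
    (N : ℝ) = (2 : ℝ) ^ (Real.sqrt (Real.logb 2 (N : ℝ)) ^ 2) := by
  have hNr : (1 : ℝ) ≤ N := by exact_mod_cast hN
  rw [Real.sq_sqrt (Real.logb_nonneg one_lt_two hNr),
    Real.rpow_logb two_pos (by norm_num) (by linarith)]

theorem two_le_of {a L : ℝ} (ha : 0 ≤ a) (hL : 0 ≤ L) {q : ℕ}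
    (hq : a * L + 3000 * Real.sqrt L + 10 ^ 11 ≤ (q : ℝ)) : 2 ≤ q := by
  have h1 : 0 ≤ a * L := mul_nonneg ha hL
  have h2 : 0 ≤ 3000 * Real.sqrt L := by positivity
  have h3 : (2 : ℝ) ≤ (q : ℝ) := by linarith
  exact_mod_cast h3

/-- the threshold is passed for every larger constant -/
theorem eventually_q (a c : ℝ) (hac : a < c) : ∃ N0 : ℕ, ∀ N : ℕ, N0 ≤ N → 1 ≤ N ∧
    a * Real.sqrt (Real.logb 2 (N : ℝ)) +
      3000 * Real.sqrt (Real.sqrt (Real.logb 2 (N : ℝ))) + 10 ^ 11 ≤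
      ((⌊c * Real.sqrt (Real.logb 2 (N : ℝ))⌋₊ : ℕ) : ℝ) := by
  have hlim : Filter.Tendsto (fun N : ℕ => Real.sqrt (Real.logb 2 (N : ℝ))) Filter.atTop
      Filter.atTop := by
    refine Real.tendsto_sqrt_atTop.comp ?_
    exact (Real.tendsto_logb_atTop one_lt_two).comp tendsto_natCast_atTop_atTop
  set T : ℝ := max 1 ((3000 + 10 ^ 11 + 1) / (c - a)) with hT
  obtain ⟨N0, hN0⟩ := (hlim.eventually_ge_atTop (T ^ 2)).exists_forall_of_atTop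
  refine ⟨max N0 1, fun N hN => ⟨(le_max_right _ _).trans hN, ?_⟩⟩
  have hTN := hN0 N ((le_max_left _ _).trans hN)
  set L : ℝ := Real.sqrt (Real.logb 2 (N : ℝ)) with hL
  have hL0 : 0 ≤ L := Real.sqrt_nonneg _
  have hT1 : 1 ≤ T := le_max_left _ _
  have hsT : T ≤ Real.sqrt L := Real.le_sqrt_of_sq_le hTN
  have hs1 : 1 ≤ Real.sqrt L := hT1.trans hsT
  have hs2 : (3000 + 10 ^ 11 + 1) / (c - a) ≤ Real.sqrt L := (le_max_right _ _).trans hsT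
  have hca : 0 < c - a := by linarith
  have hs3 : 3000 + 10 ^ 11 + 1 ≤ (c - a) * Real.sqrt L := by
    rw [div_le_iff₀ hca] at hs2
    linarith
  have hsL : Real.sqrt L * Real.sqrt L = L := Real.mul_self_sqrt hL0
  have h1 : (3000 + 10 ^ 11 + 1) * Real.sqrt L ≤ (c - a) * L := by
    have h2 := mul_le_mul_of_nonneg_right hs3 (Real.sqrt_nonneg L)
    calc (3000 + 10 ^ 11 + 1) * Real.sqrt L ≤ (c - a) * Real.sqrt L * Real.sqrt L := h2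
      _ = (c - a) * L := by rw [mul_assoc, hsL]
  have h2 : c * L < ((⌊c * L⌋₊ : ℕ) : ℝ) + 1 := Nat.lt_floor_add_one _
  nlinarith

/-- aligned rectangle lattices -/
theorem winA (N q : ℕ) (hN : 1 ≤ N)
    (hq : Real.sqrt 2 * Real.sqrt (Real.logb 2 (N : ℝ)) +
      3000 * Real.sqrt (Real.sqrt (Real.logb 2 (N : ℝ))) + 10 ^ 11 ≤ (q : ℝ)) :
    ∃ s : Sys (ℤ × ℤ) (↥(Ix N q) × ↥(Ix N q)), s.S = brd N ∧
      ∀ i, s.A i = lt2 q (i.1.1, i.2.1) := by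
  set L : ℝ := Real.sqrt (Real.logb 2 (N : ℝ)) with hL
  have hL0 : 0 ≤ L := Real.sqrt_nonneg _
  have hs2 : Real.sqrt 2 ≤ 2 := by
    rw [Real.sqrt_le_left (by norm_num)]; norm_num
  obtain ⟨κ, hκ, hκq, hb⟩ := choose_kappa (Real.sqrt 2) (Real.sqrt_nonneg 2) hs2 L hL0 q hq
  have hNr : (1 : ℝ) ≤ N := by exact_mod_cast hN
  have hq1 : (1 : ℝ) ≤ (q : ℝ) := by
    have := two_le_of (Real.sqrt_nonneg 2) hL0 hq
    exact_mod_cast (by omega : 1 ≤ q)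
  have hNe := N_pow_eq N hN
  have hYq : (N : ℝ) ^ 2 ≤ (2 : ℝ) ^ ((1 - 1 / (κ : ℝ)) * (q : ℝ) ^ 2) := by
    have h4 : (N : ℝ) ^ 2 = (2 : ℝ) ^ (L ^ 2 * 2) := by
      rw [Real.rpow_mul two_pos.le, ← hNe]
      norm_cast
    rw [h4]
    apply Real.rpow_le_rpow_of_exponent_le one_le_two
    refine le_trans (le_of_eq ?_) hb
    rw [mul_pow, Real.sq_sqrt (by norm_num : (0 : ℝ) ≤ 2)]
    ring
  have hpw : ∀ k m : ℕ, k ≤ m → (q : ℝ) ^ k ≤ (q : ℝ) ^ m := fun k m h => pow_le_pow_right₀ hq1 h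
  have hq0 : ∀ k : ℕ, (0 : ℝ) ≤ (q : ℝ) ^ k := fun k => by positivity
  obtain ⟨P, h1, h2, h3, h4, h5, h6, h7, h8⟩ := num_gen κ q hκ hκq (N : ℝ) hNr hYq
    (625 * q ^ 16) (25 * q ^ 6) (25 * q ^ 6 * N ^ 2) (5 * q ^ 5 * N) (N ^ 2) (N ^ 4)
    (by
      push_cast
      have := hpw 16 30 (by norm_num)
      linarith [hq0 30])
    (by
      push_cast
      have := hpw 6 20 (by norm_num)
      linarith [hq0 20])
    (by
      push_cast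
      have := hpw 6 20 (by norm_num)
      exact mul_le_mul_of_nonneg_right (by linarith [hq0 20]) (by positivity))
    (by
      push_cast
      have := hpw 5 20 (by norm_num)
      exact mul_le_mul_of_nonneg_right (by linarith [hq0 20]) (by positivity))
    (by push_cast; exact le_rfl)
    (by
      push_cast
      have : (0 : ℝ) ≤ (N : ℝ) ^ 4 := by positivity
      linarith)
  exact exists_sysA N q P h1 h2 h3 h4 h5 h6 h7 h8

/-- parallelogram lattices -/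
theorem winP (N q : ℕ) (hN : 1 ≤ N)
    (hq : 2 * Real.sqrt (Real.logb 2 (N : ℝ)) +
      3000 * Real.sqrt (Real.sqrt (Real.logb 2 (N : ℝ))) + 10 ^ 11 ≤ (q : ℝ)) :
    ∃ s : Sys (ℤ × ℤ) ↥(Pool.Agent.Helper32.Lat.Idx N q),
      s.S = Pool.Agent.Helper32.Lat.board N ∧
      ∀ i, s.A i = Pool.Agent.Helper32.Lat.lat q i.1 := by
  set L : ℝ := Real.sqrt (Real.logb 2 (N : ℝ)) with hL
  have hL0 : 0 ≤ L := Real.sqrt_nonneg _
  obtain ⟨κ, hκ, hκq, hb⟩ := choose_kappa 2 (by norm_num) le_rfl L hL0 q hq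
  have hNr : (1 : ℝ) ≤ N := by exact_mod_cast hN
  have hq2 := two_le_of (by norm_num : (0 : ℝ) ≤ 2) hL0 hq
  have hq1 : (1 : ℝ) ≤ (q : ℝ) := by exact_mod_cast (by omega : 1 ≤ q)
  have hNe := N_pow_eq N hN
  have hN2 : (1 : ℝ) ≤ (N : ℝ) ^ 2 := by nlinarith
  have hYq : ((N : ℝ) ^ 2) ^ 2 ≤ (2 : ℝ) ^ ((1 - 1 / (κ : ℝ)) * (q : ℝ) ^ 2) := by
    have h4 : ((N : ℝ) ^ 2) ^ 2 = (2 : ℝ) ^ (L ^ 2 * 4) := by
      rw [Real.rpow_mul two_pos.le, ← hNe]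
      have : ((N : ℝ) ^ 2) ^ 2 = (N : ℝ) ^ 4 := by ring
      rw [this]
      norm_cast
    rw [h4]
    apply Real.rpow_le_rpow_of_exponent_le one_le_two
    refine le_trans (le_of_eq ?_) hb
    ring
  have hpw : ∀ k m : ℕ, k ≤ m → (q : ℝ) ^ k ≤ (q : ℝ) ^ m := fun k m h => pow_le_pow_right₀ hq1 h
  have hq0 : ∀ k : ℕ, (0 : ℝ) ≤ (q : ℝ) ^ k := fun k => by positivity
  have h2N : (2 * (N : ℝ) + 1) ≤ 3 * N := by linarith
  have h2N0 : (0 : ℝ) ≤ 2 * (N : ℝ) + 1 := by linarith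
  have h2N4 : (2 * (N : ℝ) + 1) ^ 4 ≤ 81 * (N : ℝ) ^ 4 := by
    refine (pow_le_pow_left₀ h2N0 h2N 4).trans (le_of_eq ?_)
    ring
  have h2N2 : (2 * (N : ℝ) + 1) ^ 2 ≤ 9 * (N : ℝ) ^ 2 := by
    refine (pow_le_pow_left₀ h2N0 h2N 2).trans (le_of_eq ?_)
    ring
  obtain ⟨P, h1, h2, h3, h4, h5, h6, h7, h8⟩ := num_gen κ q hκ hκq ((N : ℝ) ^ 2) hN2 hYq
    (338 ^ 3 * q ^ 30) (338 * q ^ 8) (338 * q ^ 8 * (2 * N + 1) ^ 4)
    (676 * q ^ 10 * (2 * N + 1) ^ 2) (N ^ 2) (N ^ 2 * (2 * N + 1) ^ 4)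
    (by
      push_cast
      linarith [hq0 30])
    (by
      push_cast
      have := hpw 8 20 (by norm_num)
      linarith [hq0 20])
    (by
      push_cast
      have h9 := hpw 8 20 (by norm_num)
      have h10 : 338 * (q : ℝ) ^ 8 * (2 * (N : ℝ) + 1) ^ 4 ≤
          338 * (q : ℝ) ^ 8 * (81 * (N : ℝ) ^ 4) :=
        mul_le_mul_of_nonneg_left h2N4 (by positivity)
      have h11 : (338 * 81) * (q : ℝ) ^ 8 * (N : ℝ) ^ 4 ≤
          10 ^ 8 * (q : ℝ) ^ 20 * (N : ℝ) ^ 4 :=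
        mul_le_mul_of_nonneg_right (by linarith [hq0 20]) (by positivity)
      calc 338 * (q : ℝ) ^ 8 * (2 * (N : ℝ) + 1) ^ 4
          ≤ 338 * (q : ℝ) ^ 8 * (81 * (N : ℝ) ^ 4) := h10
        _ = (338 * 81) * (q : ℝ) ^ 8 * (N : ℝ) ^ 4 := by ring
        _ ≤ 10 ^ 8 * (q : ℝ) ^ 20 * (N : ℝ) ^ 4 := h11
        _ = 10 ^ 8 * (q : ℝ) ^ 20 * ((N : ℝ) ^ 2) ^ 2 := by ring)
    (by
      push_cast
      have h9 := hpw 10 20 (by norm_num)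
      have h10 : 676 * (q : ℝ) ^ 10 * (2 * (N : ℝ) + 1) ^ 2 ≤
          676 * (q : ℝ) ^ 10 * (9 * (N : ℝ) ^ 2) :=
        mul_le_mul_of_nonneg_left h2N2 (by positivity)
      have h11 : (676 * 9) * (q : ℝ) ^ 10 * (N : ℝ) ^ 2 ≤
          10 ^ 8 * (q : ℝ) ^ 20 * (N : ℝ) ^ 2 :=
        mul_le_mul_of_nonneg_right (by linarith [hq0 20]) (by positivity)
      calc 676 * (q : ℝ) ^ 10 * (2 * (N : ℝ) + 1) ^ 2
          ≤ 676 * (q : ℝ) ^ 10 * (9 * (N : ℝ) ^ 2) := h10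
        _ = (676 * 9) * (q : ℝ) ^ 10 * (N : ℝ) ^ 2 := by ring
        _ ≤ 10 ^ 8 * (q : ℝ) ^ 20 * (N : ℝ) ^ 2 := h11)
    (by
      push_cast
      nlinarith)
    (by
      push_cast
      have h9 : (N : ℝ) ^ 6 ≤ (N : ℝ) ^ 8 := pow_le_pow_right₀ hNr (by norm_num)
      have h10 : (0 : ℝ) ≤ (N : ℝ) ^ 8 := by positivity
      calc (N : ℝ) ^ 2 * (2 * (N : ℝ) + 1) ^ 4 ≤ (N : ℝ) ^ 2 * (81 * (N : ℝ) ^ 4) :=
            mul_le_mul_of_nonneg_left h2N4 (by positivity)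
        _ = 81 * (N : ℝ) ^ 6 := by ring
        _ ≤ 10 ^ 8 * (N : ℝ) ^ 8 := by linarith
        _ = 10 ^ 8 * ((N : ℝ) ^ 2) ^ 4 := by ring)
  exact exists_sysP N q hq2 P h1 h2 h3 h4 h5 h6 h7 h8

end Pool.Agent.Helper83.L4
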